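import Pool.Agent.Lib.HLB.SingTail

/-!
# The singular series and its partial products, shifts up to `x^2`
-/

set_option autoImplicit false

open Finset Filter Topology

namespace Pool.Agent.HLD

open Pool.Agent.HL Pool.Agent.HLB Pool.Agent.Lib.Sieve4

theorem sing_tail2 (R r : ℕ) (hr : 1 ≤ r) {ε : ℝ} (hε : 0 < ε) :
    ∀ᶠ x : ℕ in atTop, ∀ (ι : Type) [Fintype ι] (t : ι → ℕ), Fintype.card ι = r →
      Function.Injective t → (∀ i, t i ≤ x ^ 2) → SI t ≤ (1 + ε) * SZ (zz R x) t := by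
  have hR : (0:ℝ) < 2 * ((R:ℝ) + 1) := by positivity
  have hlog : Tendsto (fun x : ℕ => Real.log x) atTop atTop :=
    Real.tendsto_log_atTop.comp tendsto_natCast_atTop_atTop
  have hzT : Tendsto (fun x : ℕ => zz R x) atTop atTop := by
    unfold zz
    exact tendsto_nat_floor_atTop.comp (hlog.atTop_div_const hR)
  have hzR : Tendsto (fun x : ℕ => Real.log (zz R x : ℝ)) atTop atTop :=
    Real.tendsto_log_atTop.comp (tendsto_natCast_atTop_atTop.comp hzT)
  have hE : Tendsto (fun x : ℕ => Real.exp (24 * (r:ℝ) ^ 3 * ((R:ℝ) + 1) / Real.log (zz R x : ℝ)))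
      atTop (𝓝 (Real.exp 0)) :=
    (Real.continuous_exp.tendsto 0).comp (hzR.const_div_atTop _)
  rw [Real.exp_zero] at hE
  have hE1 := hE.eventually_le_const (show (1:ℝ) < 1 + ε by linarith)
  filter_upwards [hE1, hzT.eventually_ge_atTop 2, hlog.eventually_ge_atTop (4 * ((R:ℝ) + 1)),
    eventually_ge_atTop 2] with x hx1 hx2 hx3 hx4 ι _ t hcard ht htx
  have hx0 : (0:ℝ) < x := by
    have : 0 < x := by omega
    exact_mod_cast this
  have hz2 : (2:ℝ) ≤ (zz R x : ℝ) := by exact_mod_cast hx2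
  have hlogz : 0 < Real.log (zz R x : ℝ) := Real.log_pos (by linarith)
  have hlogx : 0 < Real.log x := lt_of_lt_of_le (by positivity) hx3
  have h1 := SI_le_SZ t (by rw [hcard]; exact hr) ht (x ^ 2) (zz R x) hx2 htx
  rw [hcard] at h1
  refine h1.trans ?_
  rw [mul_comm]
  apply mul_le_mul_of_nonneg_right _ (SZ_nonneg _ t)
  refine le_trans (Real.exp_le_exp.mpr ?_) hx1
  -- lower bound for z
  have hzge : Real.log x / (4 * ((R:ℝ) + 1)) ≤ (zz R x : ℝ) := by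
    have h2 : Real.log x / (2 * ((R:ℝ) + 1)) - 1 < (zz R x : ℝ) := by
      unfold zz
      exact Nat.sub_one_lt_floor _
    have h3 : 1 ≤ Real.log x / (4 * ((R:ℝ) + 1)) := by
      rw [le_div_iff₀ (by positivity)]
      linarith
    have h4 : Real.log x / (2 * ((R:ℝ) + 1)) = 2 * (Real.log x / (4 * ((R:ℝ) + 1))) := by
      field_simp
      ring
    linarith
  have hlog1 : Real.log ((x ^ 2 + 1 : ℕ) : ℝ) ≤ 3 * Real.log x := by
    have h2 : ((x ^ 2 + 1 : ℕ) : ℝ) ≤ (x:ℝ) ^ 3 := by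
      have h3 : x ^ 2 + 1 ≤ x ^ 3 := by nlinarith [Nat.mul_le_mul hx4 (le_refl (x ^ 2))]
      exact_mod_cast h3
    calc Real.log ((x ^ 2 + 1 : ℕ) : ℝ) ≤ Real.log ((x:ℝ) ^ 3) :=
          Real.log_le_log (by positivity) h2
      _ = 3 * Real.log x := by rw [Real.log_pow]; norm_num
  have hzpos : (0:ℝ) < zz R x := by linarith
  rw [div_le_div_iff₀ (by positivity) hlogz]
  have hlx : Real.log x ≤ 4 * ((R:ℝ) + 1) * (zz R x : ℝ) := by
    rw [div_le_iff₀ (by positivity)] at hzge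
    linarith
  calc 2 * (r:ℝ) ^ 3 * Real.log ((x ^ 2 + 1 : ℕ) : ℝ) * Real.log (zz R x : ℝ)
      ≤ 2 * (r:ℝ) ^ 3 * (3 * (4 * ((R:ℝ) + 1) * (zz R x : ℝ))) * Real.log (zz R x : ℝ) := by
        gcongr
        linarith
    _ = 24 * (r:ℝ) ^ 3 * ((R:ℝ) + 1) * ((zz R x : ℝ) * Real.log (zz R x : ℝ)) := by ring

/-- `x (log x)^K ≤ x^2` for large `x`. -/
lemma log_pow_le_self (K : ℕ) : ∀ᶠ x : ℕ in atTop, Real.log x ^ K ≤ x := by
  have h1 := (Real.isLittleO_pow_log_id_atTop (n := K)).bound (c := 1) one_pos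
  have h2 := tendsto_natCast_atTop_atTop.eventually h1
  filter_upwards [h2] with x hx
  have hx' : ‖Real.log x ^ K‖ ≤ 1 * ‖(x:ℝ)‖ := hx
  rw [Real.norm_of_nonneg (Nat.cast_nonneg x), one_mul] at hx'
  exact (le_abs_self _).trans hx'

theorem sing_tail3 (R r K : ℕ) (hr : 1 ≤ r) {ε : ℝ} (hε : 0 < ε) :
    ∀ᶠ x : ℕ in atTop, ∀ (ι : Type) [Fintype ι] (t : ι → ℕ), Fintype.card ι = r →
      Function.Injective t → (∀ i, (t i : ℝ) ≤ x * Real.log x ^ K) →
      SI t ≤ (1 + ε) * SZ (zz R x) t := by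
  filter_upwards [sing_tail2 R r hr hε, log_pow_le_self K] with x hx1 hx2 ι _ t hcard ht htx
  refine hx1 ι t hcard ht fun i => ?_
  have h1 : (t i : ℝ) ≤ x * x := (htx i).trans (mul_le_mul_of_nonneg_left hx2 (Nat.cast_nonneg x))
  have h2 : ((t i : ℕ) : ℝ) ≤ ((x ^ 2 : ℕ) : ℝ) := by
    push_cast
    nlinarith
  exact_mod_cast h2

end Pool.Agent.HLD
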