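import Pool.Agent.Lib.HLD.PrimeSieve2
import Pool.Agent.Lib.HLB.CLLower

/-!
# Correlations of one prime with several sieve weights, lower bound, shifts up to `x (log x)^K`
-/

set_option autoImplicit false

open Finset Filter

namespace Pool.Agent.HLD

open Pool.Agent.HL Pool.Agent.HLB Pool.Agent.Lib.Sieve4

lemma card_le_sum2 {ι : Type} [Fintype ι] [DecidableEq ι] (t : ι → ℕ) (i0 : ι) (x z : ℕ) :
    (((Icc 1 (x + t i0)).filter (fun n : ℕ => ((t i0 < n ∧ z < n) ∧ n.Prime) ∧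
            ∀ q ∈ Nat.primesLE z, n % q ∉ FF t i0 q)).card : ℝ)
      ≤ ∑ n ∈ Icc 1 x, ip (n + t i0) * ∏ i ∈ univ.erase i0, ic z (n + t i) := by
  classical
  set S := (Icc 1 (x + t i0)).filter (fun n : ℕ => ((t i0 < n ∧ z < n) ∧ n.Prime) ∧
            ∀ q ∈ Nat.primesLE z, n % q ∉ FF t i0 q) with hS
  have hlt : ∀ m ∈ S, t i0 < m := fun m hm => (mem_filter.1 hm).2.1.1.1
  have hinj : Set.InjOn (fun m => m - t i0) (S : Set ℕ) := by
    intro a ha b hb hab
    have h1 := hlt a ha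
    have h2 := hlt b hb
    simp only at hab
    omega
  have hsub : S.image (fun m => m - t i0) ⊆ Icc 1 x := by
    intro n hn
    rw [mem_image] at hn
    obtain ⟨m, hm, rfl⟩ := hn
    have h1 := hlt m hm
    have h2 := (mem_Icc.1 (mem_filter.1 hm).1).2
    rw [mem_Icc]
    omega
  have hterm : ∀ m ∈ S, ip (m - t i0 + t i0) * ∏ i ∈ univ.erase i0, ic z (m - t i0 + t i) = 1 := by
    intro m hm
    have h1 := hlt m hm
    have hm' := (mem_filter.1 hm).2
    rw [Nat.sub_add_cancel h1.le]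
    have e1 : ip m = 1 := by
      unfold ip; rw [if_pos hm'.1.2]
    rw [e1, one_mul]
    refine Finset.prod_eq_one fun i _ => ?_
    unfold ic
    rw [if_pos]
    intro q hq hdvd
    have hqp := (Nat.mem_primesLE.1 hq).2
    have hqz := (Nat.mem_primesLE.1 hq).1
    have : Fact q.Prime := ⟨hqp⟩
    have h2 : (m : ZMod q) = (t i0 : ZMod q) - (t i : ZMod q) := by
      have h3 : ((m - t i0 + t i : ℕ) : ZMod q) = 0 := by
        rw [ZMod.natCast_eq_zero_iff]; exact hdvd
      rw [Nat.cast_add, Nat.cast_sub h1.le] at h3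
      linear_combination h3
    have h4 : (m : ZMod q) ≠ 0 := by
      intro h
      rw [ZMod.natCast_eq_zero_iff] at h
      have h5 : q = m := (Nat.prime_dvd_prime_iff_eq hqp hm'.1.2).1 h
      have h6 := hm'.1.1.2
      omega
    exact hm'.2 q hq (mod_mem_FF t i0 i q m h2 h4)
  calc ((S.card : ℕ) : ℝ) = ∑ m ∈ S, (1:ℝ) := by simp
    _ = ∑ m ∈ S, ip (m - t i0 + t i0) * ∏ i ∈ univ.erase i0, ic z (m - t i0 + t i) :=
        Finset.sum_congr rfl fun m hm => (hterm m hm).symm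
    _ = ∑ n ∈ S.image (fun m => m - t i0),
          ip (n + t i0) * ∏ i ∈ univ.erase i0, ic z (n + t i) := by
        rw [Finset.sum_image hinj]
    _ ≤ _ := by
        refine Finset.sum_le_sum_of_subset_of_nonneg hsub ?_
        intro n _ _
        exact mul_nonneg (ip_nonneg _) (Finset.prod_nonneg fun i _ => ic_nonneg _ _)

theorem cl_lower2 (hSW : SW) (r K0 : ℕ) {ε : ℝ} (hε : 0 < ε) (M : ℕ) :
    ∀ᶠ x : ℕ in atTop, ∀ (ι : Type) [Fintype ι] [DecidableEq ι] (t : ι → ℕ) (i0 : ι),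
      Fintype.card ι = r → (t i0 : ℝ) ≤ x * Real.log x ^ K0 →
      (1 - ε) * (x / Real.log x ^ r) * SZ (zz r x) t - x / Real.log x ^ M
        ≤ bb r x ^ (r - 1) *
          ∑ n ∈ Icc 1 x, ip (n + t i0) * ∏ i ∈ univ.erase i0, ic (zz r x) (n + t i) := by
  have hlog : Tendsto (fun x : ℕ => Real.log x) atTop atTop :=
    Real.tendsto_log_atTop.comp tendsto_natCast_atTop_atTop
  filter_upwards [prime_sieve2 hSW r K0 hε M, bb_le_one r, hlog.eventually_ge_atTop 2]
    with x hps hbb hlx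
  intro ι _ _ t i0 hcard ht
  have hne : Nonempty ι := ⟨i0⟩
  have hlpos : 0 < Real.log x := by linarith
  have hzz := zz_le r x hlpos.le
  have hzl : ((zz r x : ℕ) : ℝ) ≤ Real.log x := by linarith
  have hrpos : 0 < r := by rw [← hcard]; exact Fintype.card_pos
  obtain ⟨k, rfl⟩ : ∃ k, r = k + 1 := ⟨r - 1, by omega⟩
  set z := zz (k + 1) x with hz
  have h1 := hps (t i0) ht z hzl (FF t i0) (by
    intro q hq
    have hqp := (Nat.mem_primesLE.1 hq).2
    refine ⟨FF_subset t i0 q hqp, ?_⟩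
    rw [card_FF t i0 q hqp]
    have := nuI_le t q
    omega)
  have h2 := card_le_sum2 t i0 x z
  have hbpos : 0 ≤ bb (k + 1) x := by
    unfold bb
    have := DZ_pos (zz (k + 1) x)
    positivity
  have hbk : bb (k + 1) x ^ k ≤ 1 := pow_le_one₀ hbpos hbb
  have hbk0 : 0 ≤ bb (k + 1) x ^ k := pow_nonneg hbpos k
  simp only [Nat.add_sub_cancel]
  have hx0 : (0:ℝ) ≤ x / Real.log x ^ M := by positivity
  have h3 := mul_le_mul_of_nonneg_left (h1.trans h2) hbk0
  refine le_trans ?_ h3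
  rw [mul_sub]
  have h4 : bb (k + 1) x ^ k * ((1 - ε) * (x / Real.log x) *
      ∏ q ∈ Nat.primesLE z, (1 - ((FF t i0 q).card : ℝ) / ((q : ℝ) - 1)))
      = (1 - ε) * (x / Real.log x ^ (k + 1)) * SZ z t := by
    rw [← prod_FF t i0 z k hcard]
    unfold bb
    rw [← hz, inv_pow, mul_pow, mul_inv]
    have hlk : Real.log x ^ k ≠ 0 := by positivity
    rw [pow_succ]
    field_simp
  rw [h4]
  have h5 : bb (k + 1) x ^ k * (x / Real.log x ^ M) ≤ x / Real.log x ^ M := by
    calc bb (k + 1) x ^ k * (x / Real.log x ^ M) ≤ 1 * (x / Real.log x ^ M) :=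
          mul_le_mul_of_nonneg_right hbk hx0
      _ = _ := one_mul _
  linarith

end Pool.Agent.HLD
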