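import Pool.Agent.Lib.HLD.PeelW
import Pool.Agent.Lib.HLB.PosDef
import Pool.Agent.Lib.HL.ExtremeAux
import Pool.Agent.Lib.HL.MainDefs
import Pool.Agent.Lib.HL.PntAux

/-!
# Weighted average of the partial singular series over grids
-/

set_option autoImplicit false

open Finset Filter

namespace Pool.Agent.HLD

open Pool.Agent.HL Pool.Agent.Lib.Sieve4 Pool.Agent.HLB Pool.Agent.HLC

lemma sum_wK {d : ℕ} (k : Fin d → ℕ) (T : Fin d → Finset ℕ) (w : Fin d → ℕ → ℝ) :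
    ∑ a ∈ gtupK k T, wK w a = ∏ j, (∑ t ∈ T j, w j t) ^ (k j + 1) := by
  have h1 : ∀ j, (∑ t ∈ T j, w j t) ^ (k j + 1) =
      ∑ b ∈ Fintype.piFinset (fun _ : Fin (k j + 1) => T j), ∏ l, w j (b l) := by
    intro j
    rw [← Finset.prod_univ_sum (fun _ : Fin (k j + 1) => T j) (fun _ t => w j t)]
    simp
  rw [Finset.prod_congr rfl fun j _ => h1 j, Finset.prod_univ_sum]
  rfl

theorem posdef_gridW {d : ℕ} (k : Fin d → ℕ) (z : ℕ) (T : Fin d → Finset ℕ)
    (w : Fin d → ℕ → ℝ) (hw : ∀ j t, 0 ≤ w j t) :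
    (∏ j, (∑ t ∈ T j, w j t) ^ (k j + 1)) ≤ ∑ a ∈ gtupK k T, wK w a * SZ z (gsumK a) := by
  classical
  set W : ℝ := ∏ p ∈ Nat.primesLE z, (p : ℝ) with hW
  have hWpos : 0 < W := primorial_pos' z
  have hcardW : (((range (∏ p ∈ Nat.primesLE z, p)).card : ℕ) : ℝ) = W := by
    rw [card_range]; push_cast; rfl
  have h := grid_peelW k (range (∏ p ∈ Nat.primesLE z, p)) T w hw (fun n => ic z n / DZ z)
    (fun _ => 1) (fun n => div_nonneg (ic_nonneg _ _) (DZ_pos z).le) (fun _ => zero_le_one)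
  simp only [Finset.prod_const_one, mul_one] at h
  have e1 : ∑ n ∈ range (∏ p ∈ Nat.primesLE z, p), ∑ a ∈ gtupK k T,
      wK w a * (ic z (n + gsumK a (fun _ => 0)) / DZ z) = W * ∑ a ∈ gtupK k T, wK w a := by
    rw [Finset.sum_comm]
    simp_rw [← Finset.mul_sum, ic_avg]
    rw [← Finset.sum_mul, mul_comm]
  have e2 : ∑ n ∈ range (∏ p ∈ Nat.primesLE z, p), ∑ a ∈ gtupK k T, wK w a
      = W * ∑ a ∈ gtupK k T, wK w a := by
    rw [Finset.sum_const, nsmul_eq_mul, hcardW]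
  have e3 : ∑ n ∈ range (∏ p ∈ Nat.primesLE z, p), ∑ a ∈ gtupK k T,
      wK w a * ∏ i : (j : Fin d) → Fin (k j + 1), ic z (n + gsumK a i) / DZ z
      = W * ∑ a ∈ gtupK k T, wK w a * SZ z (gsumK a) := by
    rw [Finset.sum_comm, Finset.mul_sum]
    refine Finset.sum_congr rfl fun a _ => ?_
    rw [← Finset.mul_sum, SZ_avg]
    ring
  rw [e1, e2, e3, sub_self, mul_zero, sum_wK] at h
  have : W * (∏ j, (∑ t ∈ T j, w j t) ^ (k j + 1)) ≤
      W * ∑ a ∈ gtupK k T, wK w a * SZ z (gsumK a) := by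
    linarith
  exact le_of_mul_le_mul_left this hWpos

end Pool.Agent.HLD
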