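import Pool.Agent.Lib.HLC.PeelK

/-!
# Convexity for grids, with weights
-/

set_option autoImplicit false

open Finset

namespace Pool.Agent.HLD

open Pool.Agent.HLC

/-- The weight of a family. -/
def wK {d : ℕ} {k : Fin d → ℕ} (w : Fin d → ℕ → ℝ) (a : (j : Fin d) → Fin (k j + 1) → ℕ) : ℝ :=
  ∏ j, ∏ l, w j (a j l)

lemma wK_cons {d : ℕ} {k : Fin (d + 1) → ℕ} (w : Fin (d + 1) → ℕ → ℝ) (a0 : Fin (k 0 + 1) → ℕ)
    (a' : (j : Fin d) → Fin (k j.succ + 1) → ℕ) :
    wK (k := k) w (Fin.cons (α := fun j => Fin (k j + 1) → ℕ) a0 a')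
      = (∏ l, w 0 (a0 l)) * wK (k := fun j => k j.succ) (fun j => w j.succ) a' := by
  simp [wK, Fin.prod_univ_succ]

lemma wK_nonneg {d : ℕ} {k : Fin d → ℕ} {w : Fin d → ℕ → ℝ} (hw : ∀ j t, 0 ≤ w j t)
    (a : (j : Fin d) → Fin (k j + 1) → ℕ) : 0 ≤ wK w a :=
  Finset.prod_nonneg fun j _ => Finset.prod_nonneg fun l _ => hw _ _

/-- The version with a uniform product. -/
theorem grid_peelW_aux {d : ℕ} (k : Fin d → ℕ) (X : Finset ℕ) (T : Fin d → Finset ℕ)
    (w : Fin d → ℕ → ℝ) (hw : ∀ j t, 0 ≤ w j t) (P B : ℕ → ℝ)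
    (hP : ∀ n, 0 ≤ P n) (hB : ∀ n, 0 ≤ B n) :
    (∏ j, ((k j : ℝ) + 1)) *
      (∑ n ∈ X, ∑ a ∈ gtupK k T, wK w a * ∏ i : (j : Fin d) → Fin (k j + 1),
          (if i = (fun _ => 0) then P (n + gsumK a i) else B (n + gsumK a i))
        - ∑ n ∈ X, ∑ a ∈ gtupK k T, wK w a * ∏ i : (j : Fin d) → Fin (k j + 1), B (n + gsumK a i))
      ≤ ∑ n ∈ X, ∑ a ∈ gtupK k T, wK w a * ∏ i : (j : Fin d) → Fin (k j + 1), P (n + gsumK a i)
        - ∑ n ∈ X, ∑ a ∈ gtupK k T,
            wK w a * ∏ i : (j : Fin d) → Fin (k j + 1), B (n + gsumK a i) := by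
  induction d generalizing P B with
  | zero =>
    rw [Finset.prod_of_isEmpty, one_mul]
    apply le_of_eq
    congr 1
  | succ d ih =>
    set A := Fintype.piFinset (fun _ : Fin (k 0 + 1) => T 0) with hA
    set A' := gtupK (fun j => k j.succ) (fun j => T j.succ) with hA'
    set v : (Fin (k 0 + 1) → ℕ) → ℝ := fun a0 => ∏ l, w 0 (a0 l) with hv
    have hv0 : ∀ a0, 0 ≤ v a0 := fun a0 => Finset.prod_nonneg fun l _ => hw _ _
    set w' : Fin d → ℕ → ℝ := fun j => w j.succ with hw'
    have hw'0 : ∀ j t, 0 ≤ w' j t := fun j t => hw _ _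
    -- rewrite the three sums
    have eS : ∀ Q : ℕ → ℝ, ∑ n ∈ X, ∑ a ∈ gtupK k T, wK w a *
        ∏ i : (j : Fin (d + 1)) → Fin (k j + 1), Q (n + gsumK a i)
        = ∑ n ∈ X, ∑ a0 ∈ A, ∑ a' ∈ A', v a0 * (wK w' a' * ∏ i0 : Fin (k 0 + 1),
          ∏ i' : (j : Fin d) → Fin (k j.succ + 1), Q (n + (a0 i0 + gsumK a' i'))) := by
      intro Q
      apply Finset.sum_congr rfl
      intro n _
      rw [grid_sum_consK]
      apply Finset.sum_congr rfl
      intro a0 _
      apply Finset.sum_congr rfl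
      intro a' _
      rw [grid_prod_consK, wK_cons, mul_assoc]
      simp only [gsumK_cons]
      rfl
    have eM : ∑ n ∈ X, ∑ a ∈ gtupK k T, wK w a * ∏ i : (j : Fin (d + 1)) → Fin (k j + 1),
          (if i = (fun _ => 0) then P (n + gsumK a i) else B (n + gsumK a i))
        = ∑ n ∈ X, ∑ a0 ∈ A, ∑ a' ∈ A', v a0 * (wK w' a' * ∏ i' : (j : Fin d) → Fin (k j.succ + 1),
          (if i' = (fun _ => 0) then ∏ i0 : Fin (k 0 + 1),
              (if i0 = 0 then P (n + gsumK a' i' + a0 i0) else B (n + gsumK a' i' + a0 i0))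
            else ∏ i0 : Fin (k 0 + 1), B (n + gsumK a' i' + a0 i0))) := by
      apply Finset.sum_congr rfl
      intro n _
      rw [grid_sum_consK]
      apply Finset.sum_congr rfl
      intro a0 _
      apply Finset.sum_congr rfl
      intro a' _
      rw [grid_prod_consK, Finset.prod_comm, wK_cons, mul_assoc]
      congr 1
      congr 1
      apply Finset.prod_congr rfl
      intro i' _
      by_cases h : i' = (fun _ => 0)
      · rw [if_pos h]
        apply Finset.prod_congr rfl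
        intro i0 _
        rw [gsumK_cons, show n + (a0 i0 + gsumK a' i') = n + gsumK a' i' + a0 i0 by ring]
        by_cases h0 : i0 = 0
        · rw [if_pos h0, if_pos]
          rw [h, h0]
          funext j
          refine Fin.cases ?_ ?_ j <;> simp
        · rw [if_neg h0, if_neg]
          intro hc
          apply h0
          have := congrFun hc 0
          simpa using this
      · rw [if_neg h]
        apply Finset.prod_congr rfl
        intro i0 _
        rw [gsumK_cons, show n + (a0 i0 + gsumK a' i') = n + gsumK a' i' + a0 i0 by ring, if_neg]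
        intro hc
        apply h
        funext j
        have := congrFun hc j.succ
        simpa using this
    rw [eS P, eS B, eM]
    -- the middle sum
    set M : ℝ := ∑ n ∈ X, ∑ a' ∈ A', ∑ a0 ∈ A, v a0 * (wK w' a' *
      ∏ i0 : Fin (k 0 + 1), (if i0 = 0 then ∏ i' : (j : Fin d) → Fin (k j.succ + 1),
          P (n + (a0 i0 + gsumK a' i'))
        else ∏ i' : (j : Fin d) → Fin (k j.succ + 1), B (n + (a0 i0 + gsumK a' i')))) with hM
    set TB : ℝ := ∑ n ∈ X, ∑ a0 ∈ A, ∑ a' ∈ A', v a0 * (wK w' a' * ∏ i0 : Fin (k 0 + 1),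
      ∏ i' : (j : Fin d) → Fin (k j.succ + 1), B (n + (a0 i0 + gsumK a' i'))) with hTB
    set SP : ℝ := ∑ n ∈ X, ∑ a0 ∈ A, ∑ a' ∈ A', v a0 * (wK w' a' * ∏ i0 : Fin (k 0 + 1),
      ∏ i' : (j : Fin d) → Fin (k j.succ + 1), P (n + (a0 i0 + gsumK a' i'))) with hSP
    -- sums over the coordinate `0`
    have eQ : ∀ (a' : (j : Fin d) → Fin (k j.succ + 1) → ℕ) (q : Fin (k 0 + 1) → ℕ → ℝ),
        ∑ a0 ∈ A, v a0 * (wK w' a' * ∏ i0 : Fin (k 0 + 1), q i0 (a0 i0))
        = wK w' a' * ∏ i0 : Fin (k 0 + 1), ∑ t ∈ T 0, w 0 t * q i0 t := by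
      intro a' q
      rw [Finset.prod_univ_sum, Finset.mul_sum]
      apply Finset.sum_congr rfl
      intro a0 _
      rw [hv, Finset.prod_mul_distrib]
      ring
    -- step 1
    have h1 : ((k 0 : ℝ) + 1) * (M - TB) ≤ SP - TB := by
      have eTB : TB = ∑ n ∈ X, ∑ a' ∈ A', wK w' a' * (∑ t ∈ T 0, w 0 t *
          ∏ i' : (j : Fin d) → Fin (k j.succ + 1), B (n + (t + gsumK a' i'))) ^ (k 0 + 1) := by
        rw [hTB]
        apply Finset.sum_congr rfl
        intro n _
        rw [Finset.sum_comm]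
        apply Finset.sum_congr rfl
        intro a' _
        rw [eQ a' (fun _ t => ∏ i' : (j : Fin d) → Fin (k j.succ + 1), B (n + (t + gsumK a' i')))]
        simp
      have eSP : SP = ∑ n ∈ X, ∑ a' ∈ A', wK w' a' * (∑ t ∈ T 0, w 0 t *
          ∏ i' : (j : Fin d) → Fin (k j.succ + 1), P (n + (t + gsumK a' i'))) ^ (k 0 + 1) := by
        rw [hSP]
        apply Finset.sum_congr rfl
        intro n _
        rw [Finset.sum_comm]
        apply Finset.sum_congr rfl
        intro a' _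
        rw [eQ a' (fun _ t => ∏ i' : (j : Fin d) → Fin (k j.succ + 1), P (n + (t + gsumK a' i')))]
        simp
      have eMM : M = ∑ n ∈ X, ∑ a' ∈ A', wK w' a' * ((∑ t ∈ T 0, w 0 t *
          ∏ i' : (j : Fin d) → Fin (k j.succ + 1), P (n + (t + gsumK a' i'))) *
          (∑ t ∈ T 0, w 0 t * ∏ i' : (j : Fin d) → Fin (k j.succ + 1),
          B (n + (t + gsumK a' i'))) ^ (k 0)) := by
        rw [hM]
        apply Finset.sum_congr rfl
        intro n _
        apply Finset.sum_congr rfl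
        intro a' _
        rw [eQ a' (fun i0 t => (if i0 = 0 then ∏ i' : (j : Fin d) → Fin (k j.succ + 1),
              P (n + (t + gsumK a' i'))
            else ∏ i' : (j : Fin d) → Fin (k j.succ + 1), B (n + (t + gsumK a' i'))))]
        rw [Fin.prod_univ_succ]
        simp [Fin.succ_ne_zero]
      rw [eTB, eSP, eMM, ← Finset.sum_sub_distrib, ← Finset.sum_sub_distrib, Finset.mul_sum]
      apply Finset.sum_le_sum
      intro n _
      rw [← Finset.sum_sub_distrib, ← Finset.sum_sub_distrib, Finset.mul_sum]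
      apply Finset.sum_le_sum
      intro a' _
      rw [← mul_sub, ← mul_sub, mul_left_comm]
      apply mul_le_mul_of_nonneg_left _ (wK_nonneg hw'0 a')
      apply tangentK
      · exact Finset.sum_nonneg (fun t _ => mul_nonneg (hw _ _) (Finset.prod_nonneg (fun i _ => hP _)))
      · exact Finset.sum_nonneg (fun t _ => mul_nonneg (hw _ _) (Finset.prod_nonneg (fun i _ => hB _)))
    -- step 2
    have h2 : (∏ j : Fin d, ((k j.succ : ℝ) + 1)) * ((∑ n ∈ X, ∑ a0 ∈ A, ∑ a' ∈ A',
          v a0 * (wK w' a' * ∏ i' : (j : Fin d) → Fin (k j.succ + 1),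
          (if i' = (fun _ => 0) then ∏ i0 : Fin (k 0 + 1),
              (if i0 = 0 then P (n + gsumK a' i' + a0 i0) else B (n + gsumK a' i' + a0 i0))
            else ∏ i0 : Fin (k 0 + 1), B (n + gsumK a' i' + a0 i0)))) - TB) ≤ M - TB := by
      have key : ∀ a0 ∈ A, v a0 * ((∏ j : Fin d, ((k j.succ : ℝ) + 1)) * ((∑ n ∈ X, ∑ a' ∈ A',
          wK w' a' * ∏ i' : (j : Fin d) → Fin (k j.succ + 1),
          (if i' = (fun _ => 0) then ∏ i0 : Fin (k 0 + 1),
              (if i0 = 0 then P (n + gsumK a' i' + a0 i0) else B (n + gsumK a' i' + a0 i0))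
            else ∏ i0 : Fin (k 0 + 1), B (n + gsumK a' i' + a0 i0)))
          - ∑ n ∈ X, ∑ a' ∈ A', wK w' a' * ∏ i' : (j : Fin d) → Fin (k j.succ + 1),
              ∏ i0 : Fin (k 0 + 1), B (n + gsumK a' i' + a0 i0)))
          ≤ v a0 * ((∑ n ∈ X, ∑ a' ∈ A', wK w' a' * ∏ i' : (j : Fin d) → Fin (k j.succ + 1),
            ∏ i0 : Fin (k 0 + 1), (if i0 = 0 then P (n + gsumK a' i' + a0 i0)
              else B (n + gsumK a' i' + a0 i0)))
          - ∑ n ∈ X, ∑ a' ∈ A', wK w' a' * ∏ i' : (j : Fin d) → Fin (k j.succ + 1),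
              ∏ i0 : Fin (k 0 + 1), B (n + gsumK a' i' + a0 i0)) := by
        intro a0 _
        refine mul_le_mul_of_nonneg_left ?_ (hv0 a0)
        have := ih (fun j => k j.succ) (fun j => T j.succ) w' hw'0
          (fun m => ∏ i0 : Fin (k 0 + 1), (if i0 = 0 then P (m + a0 i0) else B (m + a0 i0)))
          (fun m => ∏ i0 : Fin (k 0 + 1), B (m + a0 i0))
          (fun m => Finset.prod_nonneg (fun i _ => by split_ifs; exacts [hP _, hB _]))
          (fun m => Finset.prod_nonneg (fun i _ => hB _))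
        exact this
      have hs := Finset.sum_le_sum key
      simp only [mul_sub, Finset.sum_sub_distrib] at hs
      have eTB2 : TB = ∑ a0 ∈ A, v a0 * ∑ n ∈ X, ∑ a' ∈ A', wK w' a' *
              ∏ i' : (j : Fin d) → Fin (k j.succ + 1),
              ∏ i0 : Fin (k 0 + 1), B (n + gsumK a' i' + a0 i0) := by
        rw [hTB, Finset.sum_comm]
        apply Finset.sum_congr rfl; intro a0 _
        rw [Finset.mul_sum]
        apply Finset.sum_congr rfl; intro n _
        rw [Finset.mul_sum]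
        apply Finset.sum_congr rfl; intro a' _
        rw [Finset.prod_comm]
        congr 1
        congr 1
        apply Finset.prod_congr rfl; intro i' _
        apply Finset.prod_congr rfl; intro i0 _
        rw [show n + (a0 i0 + gsumK a' i') = n + gsumK a' i' + a0 i0 by ring]
      have eM2 : M = ∑ a0 ∈ A, v a0 * ∑ n ∈ X, ∑ a' ∈ A', wK w' a' *
            ∏ i' : (j : Fin d) → Fin (k j.succ + 1),
            ∏ i0 : Fin (k 0 + 1), (if i0 = 0 then P (n + gsumK a' i' + a0 i0)
              else B (n + gsumK a' i' + a0 i0)) := by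
        rw [hM]
        have : ∀ n ∈ X, (∑ a' ∈ A', ∑ a0 ∈ A, v a0 * (wK w' a' *
            ∏ i0 : Fin (k 0 + 1), (if i0 = 0 then ∏ i' : (j : Fin d) → Fin (k j.succ + 1),
              P (n + (a0 i0 + gsumK a' i'))
              else ∏ i' : (j : Fin d) → Fin (k j.succ + 1), B (n + (a0 i0 + gsumK a' i')))))
            = ∑ a0 ∈ A, v a0 * ∑ a' ∈ A', wK w' a' * ∏ i' : (j : Fin d) → Fin (k j.succ + 1),
            ∏ i0 : Fin (k 0 + 1), (if i0 = 0 then P (n + gsumK a' i' + a0 i0)
              else B (n + gsumK a' i' + a0 i0)) := by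
          intro n _
          rw [Finset.sum_comm]
          apply Finset.sum_congr rfl; intro a0 _
          rw [Finset.mul_sum]
          apply Finset.sum_congr rfl; intro a' _
          rw [Finset.prod_comm]
          congr 1
          congr 1
          apply Finset.prod_congr rfl; intro i0 _
          split_ifs
          · apply Finset.prod_congr rfl; intro i' _
            rw [show n + (a0 i0 + gsumK a' i') = n + gsumK a' i' + a0 i0 by ring]
          · apply Finset.prod_congr rfl; intro i' _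
            rw [show n + (a0 i0 + gsumK a' i') = n + gsumK a' i' + a0 i0 by ring]
        rw [Finset.sum_congr rfl this, Finset.sum_comm]
        simp only [Finset.mul_sum]
      rw [eTB2, eM2]
      have e5 : (∑ n ∈ X, ∑ a0 ∈ A, ∑ a' ∈ A', v a0 * (wK w' a' *
          ∏ i' : (j : Fin d) → Fin (k j.succ + 1),
          (if i' = (fun _ => 0) then ∏ i0 : Fin (k 0 + 1),
              (if i0 = 0 then P (n + gsumK a' i' + a0 i0) else B (n + gsumK a' i' + a0 i0))
            else ∏ i0 : Fin (k 0 + 1), B (n + gsumK a' i' + a0 i0))))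
          = ∑ a0 ∈ A, v a0 * ∑ n ∈ X, ∑ a' ∈ A', wK w' a' *
          ∏ i' : (j : Fin d) → Fin (k j.succ + 1),
          (if i' = (fun _ => 0) then ∏ i0 : Fin (k 0 + 1),
              (if i0 = 0 then P (n + gsumK a' i' + a0 i0) else B (n + gsumK a' i' + a0 i0))
            else ∏ i0 : Fin (k 0 + 1), B (n + gsumK a' i' + a0 i0)) := by
        rw [Finset.sum_comm]
        apply Finset.sum_congr rfl; intro a0 _
        rw [Finset.mul_sum]
        apply Finset.sum_congr rfl; intro n _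
        rw [Finset.mul_sum]
      rw [e5, mul_sub]
      refine le_trans (le_of_eq ?_) hs
      congr 1
      · rw [Finset.mul_sum]
        apply Finset.sum_congr rfl; intro a0 _
        ring
      · rw [Finset.mul_sum]
        apply Finset.sum_congr rfl; intro a0 _
        ring
    have hk : (0:ℝ) ≤ (k 0:ℝ) + 1 := by positivity
    calc _ = ((k 0 : ℝ) + 1) * ((∏ j : Fin d, ((k j.succ : ℝ) + 1)) * ((∑ n ∈ X, ∑ a0 ∈ A,
          ∑ a' ∈ A', v a0 * (wK w' a' * ∏ i' : (j : Fin d) → Fin (k j.succ + 1),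
          (if i' = (fun _ => 0) then ∏ i0 : Fin (k 0 + 1),
              (if i0 = 0 then P (n + gsumK a' i' + a0 i0) else B (n + gsumK a' i' + a0 i0))
            else ∏ i0 : Fin (k 0 + 1), B (n + gsumK a' i' + a0 i0)))) - TB)) := by
          rw [Fin.prod_univ_succ]; ring
      _ ≤ ((k 0 : ℝ) + 1) * (M - TB) := mul_le_mul_of_nonneg_left h2 hk
      _ ≤ SP - TB := h1

theorem grid_peelW {d : ℕ} (k : Fin d → ℕ) (X : Finset ℕ) (T : Fin d → Finset ℕ)
    (w : Fin d → ℕ → ℝ) (hw : ∀ j t, 0 ≤ w j t) (P B : ℕ → ℝ)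
    (hP : ∀ n, 0 ≤ P n) (hB : ∀ n, 0 ≤ B n) :
    (∏ j, ((k j : ℝ) + 1)) *
      (∑ n ∈ X, ∑ a ∈ gtupK k T, wK w a * (P (n + gsumK a (fun _ => 0)) *
          ∏ i ∈ univ.erase (fun _ => 0 : (j : Fin d) → Fin (k j + 1)), B (n + gsumK a i))
        - ∑ n ∈ X, ∑ a ∈ gtupK k T, wK w a * ∏ i : (j : Fin d) → Fin (k j + 1), B (n + gsumK a i))
      ≤ ∑ n ∈ X, ∑ a ∈ gtupK k T, wK w a * ∏ i : (j : Fin d) → Fin (k j + 1), P (n + gsumK a i)
        - ∑ n ∈ X, ∑ a ∈ gtupK k T,
            wK w a * ∏ i : (j : Fin d) → Fin (k j + 1), B (n + gsumK a i) := by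
  have h := grid_peelW_aux k X T w hw P B hP hB
  have e : (∑ n ∈ X, ∑ a ∈ gtupK k T, wK w a * (P (n + gsumK a (fun _ => 0)) *
          ∏ i ∈ univ.erase (fun _ => 0 : (j : Fin d) → Fin (k j + 1)), B (n + gsumK a i)))
      = ∑ n ∈ X, ∑ a ∈ gtupK k T, wK w a * ∏ i : (j : Fin d) → Fin (k j + 1),
          (if i = (fun _ => 0) then P (n + gsumK a i) else B (n + gsumK a i)) := by
    apply Finset.sum_congr rfl; intro n _
    apply Finset.sum_congr rfl; intro a _
    congr 1
    exact mul_prod_erase_eqK (fun _ => 0 : (j : Fin d) → Fin (k j + 1))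
      (fun i => P (n + gsumK a i)) (fun i => B (n + gsumK a i))
  rw [e]
  exact h

end Pool.Agent.HLD
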