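import Pool.Agent.Lib.HLC.SplitK
import Pool.Agent.Lib.HLD.PeelW

/-!
# Separating one coordinate of a grid, with weights
-/

set_option autoImplicit false

open Finset

namespace Pool.Agent.HLD

open Pool.Agent.HLC

/-- The weight of the rest of the family. -/
def omW {d : ℕ} (w : Fin d → ℕ → ℝ) (j0 : Fin d) (r : {j : Fin d // j ≠ j0} → ℕ)
    (b : RestA j0 r) : ℝ := ∏ j : {j : Fin d // j ≠ j0}, ∏ l, w j (b j l)

lemma prod_erase_subtype {d : ℕ} (j0 : Fin d) (f : Fin d → ℝ) :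
    ∏ j ∈ univ.erase j0, f j = ∏ j : {j : Fin d // j ≠ j0}, f j :=
  Finset.prod_subtype (univ.erase j0) (fun j => by simp) f

lemma wK_split {d : ℕ} (k : Fin d → ℕ) (w : Fin d → ℕ → ℝ) (j0 : Fin d)
    (a0 : Fin (k j0 + 1) → ℕ) (b : RestA j0 (fun j => k j)) :
    wK w ((Equiv.piSplitAt j0 (fun j => Fin (k j + 1) → ℕ)).symm (a0, b))
      = (∏ l, w j0 (a0 l)) * omW w j0 (fun j => k j) b := by
  unfold wK omW
  rw [← Finset.mul_prod_erase univ (fun j => ∏ l, w j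
    ((Equiv.piSplitAt j0 (fun j => Fin (k j + 1) → ℕ)).symm (a0, b) j l)) (Finset.mem_univ j0),
    piSplitAt_symm_self]
  congr 1
  rw [prod_erase_subtype j0 (fun j => ∏ l, w j
    ((Equiv.piSplitAt j0 (fun j => Fin (k j + 1) → ℕ)).symm (a0, b) j l))]
  refine Finset.prod_congr rfl fun j _ => ?_
  rw [piSplitAt_symm_ne]

lemma split_sumW {d : ℕ} (k : Fin d → ℕ) (T : Fin d → Finset ℕ) (w : Fin d → ℕ → ℝ)
    (X : Finset ℕ) (P : ℕ → ℝ)
    (j0 : Fin d) (r : {j : Fin d // j ≠ j0} → ℕ) (hr : ∀ j : {j : Fin d // j ≠ j0}, k j = r j) :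
    ∑ n ∈ X, ∑ a ∈ gtupK k T, wK w a * ∏ i : (j : Fin d) → Fin (k j + 1), P (n + gsumK a i)
      = ∑ v ∈ X ×ˢ restSet T j0 r, omW w j0 r v.2 *
          (∑ t ∈ T j0, w j0 t * fW P j0 r v.1 v.2 t) ^ (k j0 + 1) := by
  obtain rfl : r = fun j : {j : Fin d // j ≠ j0} => k j := (funext hr).symm
  rw [Finset.sum_product]
  refine Finset.sum_congr rfl fun n _ => ?_
  rw [sum_gtupK_split k T j0]
  refine Finset.sum_congr rfl fun b _ => ?_
  have h1 : (∑ t ∈ T j0, w j0 t * fW P j0 (fun j => k j) n b t) ^ (k j0 + 1) =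
      ∏ _l : Fin (k j0 + 1), ∑ t ∈ T j0, w j0 t * fW P j0 (fun j => k j) n b t := by
    rw [Finset.prod_const, Finset.card_univ, Fintype.card_fin]
  simp only
  rw [h1, Finset.prod_univ_sum, Finset.mul_sum]
  refine Finset.sum_congr rfl fun a0 _ => ?_
  rw [prod_split k P j0 n a0 b, wK_split, Finset.prod_mul_distrib]
  ring

lemma sum_omW {d : ℕ} (k : Fin d → ℕ) (T : Fin d → Finset ℕ) (w : Fin d → ℕ → ℝ) (j0 : Fin d) :
    ∑ b ∈ restSet T j0 (fun j => k j), omW w j0 (fun j => k j) b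
      = ∏ j ∈ univ.erase j0, (∑ t ∈ T j, w j t) ^ (k j + 1) := by
  have h1 : ∀ j : {j : Fin d // j ≠ j0}, (∑ t ∈ T j, w j t) ^ (k j + 1) =
      ∑ b ∈ Fintype.piFinset (fun _ : Fin (k j + 1) => T j), ∏ l, w j (b l) := by
    intro j
    rw [← Finset.prod_univ_sum (fun _ : Fin (k j + 1) => T j) (fun _ t => w j t)]
    simp
  rw [prod_erase_subtype j0 (fun j => (∑ t ∈ T j, w j t) ^ (k j + 1)),
    Finset.prod_congr rfl fun j _ => h1 j, Finset.prod_univ_sum]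
  rfl

open scoped Classical in
theorem split_existsW {d : ℕ} (k : Fin d → ℕ) (T : Fin d → Finset ℕ) (X : Finset ℕ) (P : ℕ → ℝ)
    (hP0 : ∀ n, 0 ≤ P n) (hP1 : ∀ n, P n ≤ 1) (w : Fin d → ℕ → ℝ) (hw0 : ∀ j t, 0 ≤ w j t)
    (hw1 : ∀ j t, w j t ≤ 1) (j0 : Fin d) :
    ∃ (W : Type) (Ws : Finset W) (om Xf : W → ℝ), (∀ v, 0 ≤ om v) ∧ (∀ v, 0 ≤ Xf v) ∧
      (∑ n ∈ X, ∑ a ∈ gtupK k T, wK w a * ∏ i : (j : Fin d) → Fin (k j + 1), P (n + gsumK a i)
        = ∑ v ∈ Ws, om v * Xf v ^ (k j0 + 1)) ∧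
      (∑ n ∈ X, ∑ a ∈ gtupK (Function.update k j0 0) T,
          wK w a * ∏ i : (j : Fin d) → Fin (Function.update k j0 0 j + 1), P (n + gsumK a i)
        = ∑ v ∈ Ws, om v * Xf v) ∧
      (∑ v ∈ Ws, om v = X.card * ∏ j ∈ univ.erase j0, (∑ t ∈ T j, w j t) ^ (k j + 1)) ∧
      (∀ i i' : (j : Fin d) → Fin (k j + 1), i j0 ≠ i' j0 →
        ∑ n ∈ X, ∑ a ∈ (gtupK k T).filter (fun a => gsumK a i = gsumK a i'),
            wK w a * ∏ i : (j : Fin d) → Fin (k j + 1), P (n + gsumK a i)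
          ≤ ∑ v ∈ Ws, om v * Xf v ^ (k j0)) := by
  have hom0 : ∀ b : RestA j0 (fun j => k j), 0 ≤ omW w j0 (fun j => k j) b := fun b =>
    Finset.prod_nonneg fun _ _ => Finset.prod_nonneg fun _ _ => hw0 _ _
  have hf0 : ∀ (n : ℕ) (b : RestA j0 (fun j => k j)) (t : ℕ),
      0 ≤ w j0 t * fW P j0 (fun j => k j) n b t := fun n b t =>
    mul_nonneg (hw0 _ _) (fW_nonneg hP0 _ _ _ _ _)
  have hf1 : ∀ (n : ℕ) (b : RestA j0 (fun j => k j)) (t : ℕ),
      w j0 t * fW P j0 (fun j => k j) n b t ≤ 1 := fun n b t =>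
    mul_le_one₀ (hw1 _ _) (fW_nonneg hP0 _ _ _ _ _) (fW_le_one hP0 hP1 _ _ _ _ _)
  refine ⟨ℕ × RestA j0 (fun j => k j), X ×ˢ restSet T j0 (fun j => k j),
    fun v => omW w j0 (fun j => k j) v.2,
    fun v => ∑ t ∈ T j0, w j0 t * fW P j0 (fun j => k j) v.1 v.2 t, ?_, ?_, ?_, ?_, ?_, ?_⟩
  · intro v
    exact hom0 _
  · intro v
    exact Finset.sum_nonneg fun t _ => hf0 _ _ _
  · exact split_sumW k T w X P j0 _ (fun _ => rfl)
  · rw [split_sumW (Function.update k j0 0) T w X P j0 (fun j => k j)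
      (fun j => Function.update_of_ne j.2 _ _)]
    refine Finset.sum_congr rfl fun v _ => ?_
    rw [Function.update_self, zero_add, pow_one]
  · rw [Finset.sum_product]
    simp only
    rw [Finset.sum_const, nsmul_eq_mul, sum_omW]
  · intro i i' hii
    rw [Finset.sum_product]
    apply Finset.sum_le_sum
    intro n _
    rw [Finset.sum_filter, sum_gtupK_split k T j0]
    apply Finset.sum_le_sum
    intro b _
    refine le_trans (le_of_eq ?_) (mul_le_mul_of_nonneg_left (coll_bound (k j0) (T j0)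
      (fun t => w j0 t * fW P j0 (fun j => k j) n b t)
      (hf0 n b) (hf1 n b) (i j0) (i' j0) hii
      (∑ j : {j : Fin d // j ≠ j0}, b j (i j)) (∑ j : {j : Fin d // j ≠ j0}, b j (i' j))) (hom0 b))
    rw [Finset.sum_filter, Finset.mul_sum]
    refine Finset.sum_congr rfl fun a0 _ => ?_
    have e1 : ∀ i : (j : Fin d) → Fin (k j + 1),
        gsumK ((Equiv.piSplitAt j0 (fun j => Fin (k j + 1) → ℕ)).symm (a0, b)) i =
          a0 (i j0) + ∑ j : {j : Fin d // j ≠ j0}, b j (i j) := by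
      intro i
      rw [gsumK_split k j0, piSplitAt_symm_self]
      congr 1
      refine Finset.sum_congr rfl fun j _ => ?_
      rw [piSplitAt_symm_ne]
    rw [e1 i, e1 i', prod_split, wK_split, Finset.prod_mul_distrib]
    split_ifs
    · ring
    · ring

end Pool.Agent.HLD
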