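import Pool.Agent.Lib.HLD.MainK2
import Pool.Agent.Lib.HLD.PosW
import Pool.Agent.Lib.HLD.SplitW

/-!
# The Hardy-Littlewood lower bound for grids of sums, with weights and an explicit constant
-/

set_option autoImplicit false

open Finset Filter

namespace Pool.Agent.HLD

open Pool.Agent.HL Pool.Agent.Lib.Sieve4 Pool.Agent.HLB Pool.Agent.HLC

/-- All grids, partial singular series. -/
theorem grid_lower_auxW (hSW : SW) {d : ℕ} (k : Fin d → ℕ) (K0 : ℕ) {ε : ℝ} (hε : 0 < ε) :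
    ∀ᶠ x : ℕ in atTop, ∀ T : Fin d → Finset ℕ,
      (∀ j, ∀ a ∈ T j, (a : ℝ) ≤ x * Real.log x ^ K0) →
      ∀ w : Fin d → ℕ → ℝ, (∀ j t, 0 ≤ w j t) →
      (1 - ε) * ((x / Real.log x ^ (RK k)) *
          ∑ a ∈ gtupK k T, wK w a * SZ (zz (RK k) x) (gsumK a))
        ≤ ∑ a ∈ gtupK k T, wK w a * (cnt (gsumK a) x : ℝ) := by
  classical
  set r : ℕ := RK k with hr
  have hr1 : 1 ≤ r := RK_pos k
  have hrR : (1:ℝ) ≤ (r : ℝ) := by exact_mod_cast hr1
  set R : ℝ := (r : ℝ) with hR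
  have hR0 : 0 < R := by linarith
  have hRpow : ∏ j, ((k j : ℝ) + 1) = R := by rw [hR, hr, RK]; push_cast; ring
  set ε1 : ℝ := ε / (4 * R) with hε1
  have hε1pos : 0 < ε1 := by positivity
  have hL : ∀ᶠ x : ℕ in atTop, 8 * R / ε ≤ Real.log x :=
    (Real.tendsto_log_atTop.comp tendsto_natCast_atTop_atTop).eventually_ge_atTop _
  filter_upwards [cl_lower2 hSW r (K0 + 1) hε1pos (r + 1), cl_upper r (r + 1), hL,
    eventually_ge_atTop 2, gsum_bound d K0] with x hx1 hx2 hx3 hx4 hxd T hT w hw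
  have hxpos : (0:ℝ) < x := by exact_mod_cast (by omega : 0 < x)
  have hLpos : 0 < Real.log x := lt_of_lt_of_le (by positivity) hx3
  set z := zz r x with hz
  set b := bb r x with hb
  set X : ℝ := x / Real.log x ^ r with hX
  have hXpos : 0 < X := by positivity
  set G : ℝ := ∑ a ∈ gtupK k T, wK w a * SZ z (gsumK a) with hG
  have hcardI : Fintype.card ((j : Fin d) → Fin (k j + 1)) = r := card_index k
  have hw0 : ∀ a : (j : Fin d) → Fin (k j + 1) → ℕ, 0 ≤ wK w a := wK_nonneg hw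
  have hb0 : 0 ≤ b := by
    rw [hb]; unfold bb
    exact inv_nonneg.mpr (mul_nonneg (DZ_pos _).le hLpos.le)
  set V : ℝ := ∑ a ∈ gtupK k T, wK w a with hV
  have hV0 : 0 ≤ V := Finset.sum_nonneg fun a _ => hw0 a
  have hpd : V ≤ G := by
    rw [hV, sum_wK]
    exact posdef_gridW k z T w hw
  have hG0 : 0 ≤ G := le_trans hV0 hpd
  have hpeel := grid_peelW k (Icc 1 x) T w hw ip (fun n => b * ic z n) ip_nonneg
    (fun n => mul_nonneg hb0 (ic_nonneg _ _))
  rw [hRpow] at hpeel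
  have eP : ∑ n ∈ Icc 1 x, ∑ a ∈ gtupK k T, wK w a *
        ∏ i : (j : Fin d) → Fin (k j + 1), ip (n + gsumK a i)
      = ∑ a ∈ gtupK k T, wK w a * (cnt (gsumK a) x : ℝ) := by
    rw [Finset.sum_comm]
    refine Finset.sum_congr rfl fun a _ => ?_
    rw [cnt_eq, Finset.mul_sum]
  have eB : ∑ n ∈ Icc 1 x, ∑ a ∈ gtupK k T, wK w a *
        ∏ i : (j : Fin d) → Fin (k j + 1), (fun n => b * ic z n) (n + gsumK a i)
      = ∑ a ∈ gtupK k T, wK w a * (b ^ r * ∑ n ∈ Icc 1 x,
          ∏ i : (j : Fin d) → Fin (k j + 1), ic z (n + gsumK a i)) := by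
    rw [Finset.sum_comm]
    refine Finset.sum_congr rfl fun a _ => ?_
    rw [Finset.mul_sum, Finset.mul_sum]
    refine Finset.sum_congr rfl fun n _ => ?_
    simp only
    rw [Finset.prod_mul_distrib, Finset.prod_const, card_univ, hcardI]
  have eS : ∑ n ∈ Icc 1 x, ∑ a ∈ gtupK k T, wK w a *
          (ip (n + gsumK a (fun _ => 0)) *
            ∏ i ∈ univ.erase (fun _ => 0 : (j : Fin d) → Fin (k j + 1)),
            (fun n => b * ic z n) (n + gsumK a i))
      = ∑ a ∈ gtupK k T, wK w a * (b ^ (r - 1) * ∑ n ∈ Icc 1 x, ip (n + gsumK a (fun _ => 0)) *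
          ∏ i ∈ univ.erase (fun _ => 0 : (j : Fin d) → Fin (k j + 1)), ic z (n + gsumK a i)) := by
    rw [Finset.sum_comm]
    refine Finset.sum_congr rfl fun a _ => ?_
    rw [Finset.mul_sum, Finset.mul_sum]
    refine Finset.sum_congr rfl fun n _ => ?_
    simp only
    rw [Finset.prod_mul_distrib, Finset.prod_const, Finset.card_erase_of_mem (mem_univ _), card_univ,
      hcardI]
    ring
  rw [eP, eB, eS] at hpeel
  set S0 : ℝ := ∑ a ∈ gtupK k T, wK w a * (cnt (gsumK a) x : ℝ) with hS0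
  set TT0 : ℝ := ∑ a ∈ gtupK k T, wK w a * (b ^ r * ∑ n ∈ Icc 1 x,
    ∏ i : (j : Fin d) → Fin (k j + 1), ic z (n + gsumK a i)) with hTT
  set Sd : ℝ := ∑ a ∈ gtupK k T, wK w a *
    (b ^ (r - 1) * ∑ n ∈ Icc 1 x, ip (n + gsumK a (fun _ => 0)) *
          ∏ i ∈ univ.erase (fun _ => 0 : (j : Fin d) → Fin (k j + 1)), ic z (n + gsumK a i)) with hSd
  have hlow : (1 - ε1) * (X * G) - x / Real.log x ^ (r + 1) * V ≤ Sd := by
    have h1 : ∀ a ∈ gtupK k T, wK w a * ((1 - ε1) * X * SZ z (gsumK a) - x / Real.log x ^ (r + 1))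
        ≤ wK w a * (b ^ (r - 1) * ∑ n ∈ Icc 1 x, ip (n + gsumK a (fun _ => 0)) *
          ∏ i ∈ univ.erase (fun _ => 0 : (j : Fin d) → Fin (k j + 1)), ic z (n + gsumK a i)) := by
      intro a ha
      refine mul_le_mul_of_nonneg_left ?_ (hw0 a)
      refine hx1 ((j : Fin d) → Fin (k j + 1)) (gsumK a) (fun _ => 0) hcardI ?_
      exact (gsumK_le (y := x * Real.log x ^ K0) hT ha _).trans hxd
    have h2 := Finset.sum_le_sum h1
    refine le_trans (le_of_eq ?_) h2
    rw [hG, hV, Finset.mul_sum, Finset.mul_sum, Finset.mul_sum, ← Finset.sum_sub_distrib]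
    refine Finset.sum_congr rfl fun a _ => ?_
    ring
  have hup : TT0 ≤ X * G + x / Real.log x ^ (r + 1) * V := by
    have h1 : ∀ a ∈ gtupK k T, wK w a * (b ^ r * ∑ n ∈ Icc 1 x,
          ∏ i : (j : Fin d) → Fin (k j + 1), ic z (n + gsumK a i))
        ≤ wK w a * (X * SZ z (gsumK a) + x / Real.log x ^ (r + 1)) := by
      intro a _
      exact mul_le_mul_of_nonneg_left
        (hx2 ((j : Fin d) → Fin (k j + 1)) (gsumK a) hcardI) (hw0 a)
    have h2 : TT0 ≤ ∑ a ∈ gtupK k T, wK w a * (X * SZ z (gsumK a) + x / Real.log x ^ (r + 1)) :=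
      Finset.sum_le_sum h1
    refine h2.trans (le_of_eq ?_)
    rw [hG, hV, Finset.mul_sum, Finset.mul_sum, ← Finset.sum_add_distrib]
    refine Finset.sum_congr rfl fun a _ => ?_
    ring
  have herr : x / Real.log x ^ (r + 1) * V ≤ (1 / Real.log x) * (X * G) := by
    have e : (x:ℝ) / Real.log x ^ (r + 1) = (1 / Real.log x) * X := by
      rw [hX, pow_succ]
      field_simp
    rw [e, mul_assoc]
    gcongr
  have hlogR : 2 * R * (1 / Real.log x) ≤ ε / 4 := by
    rw [mul_one_div, div_le_iff₀ hLpos]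
    have := (div_le_iff₀ hε).mp hx3
    nlinarith
  have hRε : R * ε1 = ε / 4 := by
    rw [hε1]
    field_simp
  have hXG : 0 ≤ X * G := by positivity
  have h3 : R * ((1 - ε1) * (X * G) - (1 / Real.log x) * (X * G)) ≤ R * Sd :=
    mul_le_mul_of_nonneg_left (by linarith) hR0.le
  have h4 : (R - 1) * TT0 ≤ (R - 1) * (X * G + (1 / Real.log x) * (X * G)) :=
    mul_le_mul_of_nonneg_left (by linarith) (by linarith)
  have h5 : (1 - ε) * (X * G) ≤ R * ((1 - ε1) * (X * G) - (1 / Real.log x) * (X * G))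
      - (R - 1) * (X * G + (1 / Real.log x) * (X * G)) := by
    have h6 : R * ((1 - ε1) * (X * G) - (1 / Real.log x) * (X * G))
      - (R - 1) * (X * G + (1 / Real.log x) * (X * G))
      = (1 - R * ε1 - (2 * R - 1) * (1 / Real.log x)) * (X * G) := by ring
    rw [h6]
    refine mul_le_mul_of_nonneg_right ?_ hXG
    have h7 : (2 * R - 1) * (1 / Real.log x) ≤ 2 * R * (1 / Real.log x) := by
      have : 0 ≤ 1 / Real.log x := by positivity
      nlinarith
    linarith
  linarith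

/-- Chebyshev's sum inequality with weights. -/
lemma cheb_pow_w {W : Type} (Ws : Finset W) (om f : W → ℝ) (hom : ∀ v, 0 ≤ om v)
    (hf : ∀ v, 0 ≤ f v) (m : ℕ) :
    (∑ v ∈ Ws, om v * f v) * (∑ v ∈ Ws, om v * f v ^ m) ≤
      (∑ v ∈ Ws, om v) * ∑ v ∈ Ws, om v * f v ^ (m + 1) := by
  have h0 : 0 ≤ ∑ i ∈ Ws, ∑ j ∈ Ws, om i * om j * ((f i - f j) * (f i ^ m - f j ^ m)) := by
    refine Finset.sum_nonneg fun i _ => Finset.sum_nonneg fun j _ => ?_
    refine mul_nonneg (mul_nonneg (hom i) (hom j)) ?_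
    rcases le_total (f i) (f j) with h | h
    · exact mul_nonneg_of_nonpos_of_nonpos (by linarith)
        (by linarith [pow_le_pow_left₀ (hf i) h m])
    · exact mul_nonneg (by linarith) (by linarith [pow_le_pow_left₀ (hf j) h m])
  have e : ∑ i ∈ Ws, ∑ j ∈ Ws, om i * om j * ((f i - f j) * (f i ^ m - f j ^ m)) =
      (∑ v ∈ Ws, om v * f v ^ (m + 1)) * (∑ v ∈ Ws, om v)
      - (∑ v ∈ Ws, om v * f v) * (∑ v ∈ Ws, om v * f v ^ m)
      - (∑ v ∈ Ws, om v * f v ^ m) * (∑ v ∈ Ws, om v * f v)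
      + (∑ v ∈ Ws, om v) * (∑ v ∈ Ws, om v * f v ^ (m + 1)) := by
    simp only [Finset.sum_mul_sum, ← Finset.sum_sub_distrib, ← Finset.sum_add_distrib]
    refine Finset.sum_congr rfl fun i _ => Finset.sum_congr rfl fun j _ => ?_
    ring
  rw [e] at h0
  nlinarith

open scoped Classical in
/-- Half of the ordered pairs. -/
lemma sum_not_inj_le {α β : Type} [Fintype β] [DecidableEq β] (A : Finset α) (s : α → β → ℕ)
    (g : α → ℝ) (hg : ∀ a, 0 ≤ g a) :
    ∑ a ∈ A.filter (fun a => ¬ Function.Injective (s a)), g a ≤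
      (1 / 2) * ∑ p ∈ (univ : Finset (β × β)).filter (fun p => p.1 ≠ p.2),
        ∑ a ∈ A.filter (fun a => s a p.1 = s a p.2), g a := by
  have h1 : ∑ p ∈ (univ : Finset (β × β)).filter (fun p => p.1 ≠ p.2),
        ∑ a ∈ A.filter (fun a => s a p.1 = s a p.2), g a
      = ∑ a ∈ A, (((univ : Finset (β × β)).filter (fun p => p.1 ≠ p.2)).filter
          (fun p => s a p.1 = s a p.2)).card * g a := by
    simp only [Finset.sum_filter (s := A)]
    rw [Finset.sum_comm]
    refine Finset.sum_congr rfl fun a _ => ?_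
    rw [← Finset.sum_filter, Finset.sum_const, nsmul_eq_mul]
  rw [h1, Finset.mul_sum, Finset.sum_filter]
  refine Finset.sum_le_sum fun a _ => ?_
  by_cases h : Function.Injective (s a)
  swap
  · rw [if_pos h]
    unfold Function.Injective at h
    push Not at h
    obtain ⟨i, i', h2, hne⟩ := h
    have hcard : 2 ≤ (((univ : Finset (β × β)).filter (fun p => p.1 ≠ p.2)).filter
          (fun p => s a p.1 = s a p.2)).card := by
      rw [← Nat.lt_iff_add_one_le, Finset.one_lt_card]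
      refine ⟨(i, i'), ?_, (i', i), ?_, ?_⟩
      · simp [hne, h2]
      · simp [hne.symm, h2]
      · intro hc
        exact hne (congrArg Prod.fst hc)
    have hc2 : (2:ℝ) ≤ ((((univ : Finset (β × β)).filter (fun p => p.1 ≠ p.2)).filter
          (fun p => s a p.1 = s a p.2)).card : ℝ) := by exact_mod_cast hcard
    nlinarith [hg a]
  · rw [if_neg (not_not.mpr h)]
    have := hg a
    positivity

open scoped Classical in
/-- Degenerate grids contribute little. -/
theorem degenerateW (hSW : SW) {d : ℕ} (k : Fin d → ℕ) (K0 : ℕ) {ε : ℝ} (hε : 0 < ε)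
    (hε1 : ε < 1) :
    ∀ᶠ x : ℕ in atTop, ∀ T : Fin d → Finset ℕ,
      (∀ j, ∀ a ∈ T j, (a : ℝ) ≤ x * Real.log x ^ K0) →
      ∀ w : Fin d → ℕ → ℝ, (∀ j t, 0 ≤ w j t) → (∀ j t, w j t ≤ 1) → ∀ μ : ℝ, 0 ≤ μ →
      (∀ j, 1 ≤ k j → Real.log x ^ (RK (Function.update k j 0)) ≤ μ * ∑ t ∈ T j, w j t) →
      ∑ a ∈ (gtupK k T).filter (fun a => ¬ Function.Injective (gsumK a)),
          wK w a * (cnt (gsumK a) x : ℝ)
        ≤ ((RK k : ℝ) * (RK k - 1) / 2) * (μ / (1 - ε)) *
          ∑ a ∈ gtupK k T, wK w a * (cnt (gsumK a) x : ℝ) := by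
  have hall : ∀ᶠ x : ℕ in atTop, ∀ j0 : Fin d, ∀ T : Fin d → Finset ℕ,
      (∀ j, ∀ a ∈ T j, (a : ℝ) ≤ x * Real.log x ^ K0) →
      ∀ w : Fin d → ℕ → ℝ, (∀ j t, 0 ≤ w j t) →
      (1 - ε) * ((x / Real.log x ^ (RK (Function.update k j0 0))) *
          ∑ a ∈ gtupK (Function.update k j0 0) T,
            wK w a * SZ (zz (RK (Function.update k j0 0)) x) (gsumK a))
        ≤ ∑ a ∈ gtupK (Function.update k j0 0) T, wK w a * (cnt (gsumK a) x : ℝ) :=
    Filter.eventually_all.mpr fun j0 =>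
      grid_lower_auxW hSW (Function.update k j0 0) K0 hε
  filter_upwards [hall, eventually_ge_atTop 3] with x hx1 hx3 T hT w hw0 hw1 μ hμ0 hμ
  have hx3R : (3:ℝ) ≤ x := by exact_mod_cast hx3
  have hxpos : (0:ℝ) < x := by linarith
  have hlog : 0 < Real.log x := Real.log_pos (by linarith)
  have hε' : 0 < 1 - ε := by linarith
  have hwK0 : ∀ {k' : Fin d → ℕ} (a : (j : Fin d) → Fin (k' j + 1) → ℕ), 0 ≤ wK w a :=
    fun a => wK_nonneg hw0 a
  set Φ : ℝ := ∑ a ∈ gtupK k T, wK w a * (cnt (gsumK a) x : ℝ) with hΦ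
  have hΦ0 : 0 ≤ Φ := Finset.sum_nonneg fun a _ => mul_nonneg (hwK0 a) (Nat.cast_nonneg _)
  have hR1 : (1:ℝ) ≤ (RK k : ℝ) := by exact_mod_cast RK_pos k
  have ePk : ∀ k' : Fin d → ℕ, ∀ A : Finset ((j : Fin d) → Fin (k' j + 1) → ℕ),
      ∑ n ∈ Icc 1 x, ∑ a ∈ A, wK w a * ∏ i : (j : Fin d) → Fin (k' j + 1), ip (n + gsumK a i)
      = ∑ a ∈ A, wK w a * (cnt (gsumK a) x : ℝ) := by
    intro k' A
    rw [Finset.sum_comm]
    refine Finset.sum_congr rfl fun a _ => ?_
    rw [cnt_eq, Finset.mul_sum]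
  -- a pair of coinciding points
  have hpair : ∀ i i' : (j : Fin d) → Fin (k j + 1), i ≠ i' →
      ∑ a ∈ (gtupK k T).filter (fun a => gsumK a i = gsumK a i'), wK w a * (cnt (gsumK a) x : ℝ)
        ≤ μ / (1 - ε) * Φ := by
    intro i i' hii
    obtain ⟨j0, hj0⟩ : ∃ j0, i j0 ≠ i' j0 := by
      by_contra hcon
      push Not at hcon
      exact hii (funext hcon)
    have hk1 : 1 ≤ k j0 := by
      by_contra hk
      have hk0 : k j0 = 0 := by omega
      apply hj0
      have h1 := (i j0).isLt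
      have h2 := (i' j0).isLt
      exact Fin.ext (by omega)
    set Wt : Fin d → ℝ := fun j => ∑ t ∈ T j, w j t with hWt
    have hWt0 : ∀ j, 0 ≤ Wt j := fun j => Finset.sum_nonneg fun t _ => hw0 j t
    by_cases hne : ∀ j, 0 < Wt j
    swap
    · push Not at hne
      obtain ⟨j, hj⟩ := hne
      have hj0 : Wt j = 0 := le_antisymm hj (hWt0 j)
      have hz : ∑ a ∈ gtupK k T, wK w a = 0 := by
        rw [sum_wK]
        refine Finset.prod_eq_zero (mem_univ j) ?_
        rw [show ∑ t ∈ T j, w j t = 0 from hj0]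
        exact zero_pow (by omega)
      have hz' : ∀ a ∈ gtupK k T, wK w a = 0 :=
        (Finset.sum_eq_zero_iff_of_nonneg fun a _ => hwK0 a).mp hz
      rw [Finset.sum_eq_zero]
      · positivity
      · intro a ha
        rw [hz' a (mem_filter.mp ha).1, zero_mul]
    obtain ⟨W, Ws, om, Xf, hom, hXf, h1, h2, h3, h4⟩ :=
      split_existsW k T (Icc 1 x) ip ip_nonneg ip_le_one w hw0 hw1 j0
    have h4' := h4 i i' hj0
    rw [ePk] at h1 h2 h4'
    rw [Nat.card_Icc, Nat.add_sub_cancel] at h3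
    have hch := cheb_pow_w Ws om Xf hom hXf (k j0)
    rw [← h1, ← h2] at hch
    -- the lower bound for the reduced grid
    have hlow := hx1 j0 T hT w hw0
    set k1 := Function.update k j0 0 with hk1def
    set Φ1 : ℝ := ∑ a ∈ gtupK k1 T, wK w a * (cnt (gsumK a) x : ℝ) with hΦ1
    set Y : ℝ := ∏ j ∈ univ.erase j0, (∑ t ∈ T j, w j t) ^ (k j + 1) with hY
    have hYpos : 0 < Y := Finset.prod_pos fun j _ => pow_pos (hne j) _
    have hpd := posdef_gridW k1 (zz (RK k1) x) T w hw0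
    have hprod : ∏ j, (∑ t ∈ T j, w j t) ^ (k1 j + 1) = Wt j0 * Y := by
      rw [← Finset.mul_prod_erase univ _ (mem_univ j0), hk1def, Function.update_self, zero_add, pow_one]
      congr 1
      refine Finset.prod_congr rfl fun j hj => ?_
      rw [Function.update_of_ne (Finset.ne_of_mem_erase hj)]
    rw [hprod] at hpd
    rw [h3] at hch
    clear_value Y
    have hLp : 0 < Real.log x ^ (RK k1) := by positivity
    have hT0 : Real.log x ^ (RK k1) ≤ μ * Wt j0 := hμ j0 hk1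
    have hμpos : 0 < μ := by
      rcases hμ0.eq_or_lt with h | h
      · rw [← h, zero_mul] at hT0
        linarith
      · exact h
    have hlow2 : (1 - ε) * (x * Y) ≤ μ * Φ1 := by
      have h5 : (1 - ε) * ((x / Real.log x ^ (RK k1)) * (Wt j0 * Y)) ≤ Φ1 := by
        refine le_trans ?_ hlow
        gcongr
      have h6 : x * Y ≤ μ * ((x / Real.log x ^ (RK k1)) * (Wt j0 * Y)) := by
        calc x * Y = (x / Real.log x ^ (RK k1)) * (Real.log x ^ (RK k1) * Y) := by
              field_simp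
          _ ≤ (x / Real.log x ^ (RK k1)) * ((μ * Wt j0) * Y) := by gcongr
          _ = μ * ((x / Real.log x ^ (RK k1)) * (Wt j0 * Y)) := by ring
      calc (1 - ε) * (x * Y) ≤ (1 - ε) * (μ * ((x / Real.log x ^ (RK k1)) * (Wt j0 * Y))) := by
            gcongr
        _ = μ * ((1 - ε) * ((x / Real.log x ^ (RK k1)) * (Wt j0 * Y))) := by ring
        _ ≤ μ * Φ1 := by gcongr
    have hXYpos : 0 < x * Y := by positivity
    set Q : ℝ := ∑ v ∈ Ws, om v * Xf v ^ (k j0) with hQ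
    have hQ0 : 0 ≤ Q := Finset.sum_nonneg fun v _ => mul_nonneg (hom v) (pow_nonneg (hXf v) _)
    have h7 : (1 - ε) * (x * Y) * Q ≤ μ * ((x * Y) * Φ) := by
      calc (1 - ε) * (x * Y) * Q ≤ μ * Φ1 * Q := mul_le_mul_of_nonneg_right hlow2 hQ0
        _ = μ * (Φ1 * Q) := by ring
        _ ≤ μ * ((x * Y) * Φ) := mul_le_mul_of_nonneg_left hch hμ0
    have h8 : (1 - ε) * Q ≤ μ * Φ := by
      have h9 : (x * Y) * ((1 - ε) * Q) ≤ (x * Y) * (μ * Φ) := by
        calc (x * Y) * ((1 - ε) * Q) = (1 - ε) * (x * Y) * Q := by ring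
          _ ≤ μ * ((x * Y) * Φ) := h7
          _ = (x * Y) * (μ * Φ) := by ring
      exact le_of_mul_le_mul_left h9 hXYpos
    refine h4'.trans ?_
    rw [div_mul_eq_mul_div, le_div_iff₀ hε']
    linarith
  -- half of the ordered pairs
  refine (sum_not_inj_le (gtupK k T) (fun a => gsumK a)
    (fun a => wK w a * (cnt (gsumK a) x : ℝ)) (fun a => mul_nonneg (hwK0 a) (Nat.cast_nonneg _))).trans ?_
  have h10 := Finset.sum_le_sum (s := (univ : Finset (((j : Fin d) → Fin (k j + 1)) ×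
      ((j : Fin d) → Fin (k j + 1)))).filter (fun p => p.1 ≠ p.2))
      (fun p hp => hpair p.1 p.2 (mem_filter.mp hp).2)
  rw [Finset.sum_const, nsmul_eq_mul] at h10
  have hc : ((((univ : Finset (((j : Fin d) → Fin (k j + 1)) ×
      ((j : Fin d) → Fin (k j + 1)))).filter (fun p => p.1 ≠ p.2)).card : ℕ) : ℝ) =
        (RK k : ℝ) * (RK k - 1) := by
    have h1 := Finset.offDiag_card (univ : Finset ((j : Fin d) → Fin (k j + 1)))
    have h2 : (univ : Finset (((j : Fin d) → Fin (k j + 1)) ×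
      ((j : Fin d) → Fin (k j + 1)))).filter (fun p => p.1 ≠ p.2) =
        (univ : Finset ((j : Fin d) → Fin (k j + 1))).offDiag := by
      ext p
      simp [Finset.mem_offDiag]
    rw [h2, h1, card_univ, card_index, Nat.cast_sub (Nat.le_mul_self _)]
    push_cast
    ring
  rw [hc] at h10
  have h11 : 0 ≤ μ / (1 - ε) * Φ := by positivity
  calc _ ≤ (1 / 2) * ((RK k : ℝ) * (RK k - 1) * (μ / (1 - ε) * Φ)) :=
        mul_le_mul_of_nonneg_left h10 (by norm_num)
    _ = ((RK k : ℝ) * (RK k - 1) / 2) * (μ / (1 - ε)) * Φ := by ring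

open scoped Classical in
/-- Nondegenerate grids, full singular series, weights. -/
theorem grid_lowerW (hSW : SW) {d : ℕ} (k : Fin d → ℕ) (K0 : ℕ) {ε : ℝ} (hε : 0 < ε) :
    ∀ᶠ x : ℕ in atTop, ∀ T : Fin d → Finset ℕ,
      (∀ j, ∀ a ∈ T j, (a : ℝ) ≤ x * Real.log x ^ K0) →
      ∀ w : Fin d → ℕ → ℝ, (∀ j t, 0 ≤ w j t) → (∀ j t, w j t ≤ 1) → ∀ μ : ℝ, 0 ≤ μ →
      (∀ j, 1 ≤ k j → Real.log x ^ (RK (Function.update k j 0)) ≤ μ * ∑ t ∈ T j, w j t) →
      (1 - ε - (RK k : ℝ) * (RK k - 1) / 2 * μ) * ((x / Real.log x ^ (RK k)) *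
          ∑ a ∈ (gtupK k T).filter (fun a => Function.Injective (gsumK a)), wK w a * SI (gsumK a))
        ≤ ∑ a ∈ (gtupK k T).filter (fun a => Function.Injective (gsumK a)),
            wK w a * (cnt (gsumK a) x : ℝ) ∧
      (1 - ε - (RK k : ℝ) * (RK k - 1) / 2 * μ) * ((x / Real.log x ^ (RK k)) *
          ∏ j, (∑ t ∈ T j, w j t) ^ (k j + 1))
        ≤ ∑ a ∈ (gtupK k T).filter (fun a => Function.Injective (gsumK a)),
            wK w a * (cnt (gsumK a) x : ℝ) := by
  set r : ℕ := RK k with hr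
  have hr1 : 1 ≤ r := RK_pos k
  have hrR : (1:ℝ) ≤ (r : ℝ) := by exact_mod_cast hr1
  set ε' : ℝ := min (ε / 8) (1 / 2) with hε'
  have hε'0 : 0 < ε' := lt_min (by positivity) (by norm_num)
  have hε'1 : ε' < 1 := lt_of_le_of_lt (min_le_right _ _) (by norm_num)
  have hε'8 : ε' ≤ ε / 8 := min_le_left _ _
  filter_upwards [grid_lower_auxW hSW k K0 hε'0, degenerateW hSW k K0 hε'0 hε'1,
    sing_tail3 r r (K0 + 1) hr1 (ε := ε / 4) (by positivity), eventually_ge_atTop 3,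
    gsum_bound d K0] with x hx1 hx2 hx3 hx4 hxd T hT w hw0 hw1 μ hμ0 hμ
  have hx3R : (3:ℝ) ≤ x := by exact_mod_cast hx4
  have hxpos : (0:ℝ) < x := by linarith
  have hLpos : 0 < Real.log x := Real.log_pos (by linarith)
  have hgx : ∀ a ∈ gtupK k T, ∀ i, (gsumK a i : ℝ) ≤ x * Real.log x ^ (K0 + 1) := by
    intro a ha i
    exact (gsumK_le (y := x * Real.log x ^ K0) hT ha i).trans hxd
  have h1 := hx1 T hT w hw0
  have h2 := hx2 T hT w hw0 hw1 μ hμ0 hμ
  have hwK0 : ∀ a : (j : Fin d) → Fin (k j + 1) → ℕ, 0 ≤ wK w a := wK_nonneg hw0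
  set z := zz r x with hz
  set X : ℝ := x / Real.log x ^ r with hX
  have hXpos : 0 < X := by positivity
  set G : ℝ := ∑ a ∈ gtupK k T, wK w a * SZ z (gsumK a) with hG
  set I := (gtupK k T).filter (fun a => Function.Injective (gsumK a)) with hI
  set Φ : ℝ := ∑ a ∈ gtupK k T, wK w a * (cnt (gsumK a) x : ℝ) with hΦ
  set V : ℝ := ∏ j, (∑ t ∈ T j, w j t) ^ (k j + 1) with hV
  have hpd : V ≤ G := posdef_gridW k z T w hw0
  have hV0 : 0 ≤ V := Finset.prod_nonneg fun j _ =>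
    pow_nonneg (Finset.sum_nonneg fun t _ => hw0 j t) _
  have hG0 : 0 ≤ G := le_trans hV0 hpd
  have hXG : 0 ≤ X * G := by positivity
  set c : ℝ := (r : ℝ) * (r - 1) / 2 with hc
  have hc0 : 0 ≤ c := by
    have : (0:ℝ) ≤ (r:ℝ) - 1 := by linarith
    positivity
  have hcμ : 0 ≤ c * μ := by positivity
  have hsplit : Φ
      = ∑ a ∈ I, wK w a * (cnt (gsumK a) x : ℝ)
        + ∑ a ∈ (gtupK k T).filter (fun a => ¬ Function.Injective (gsumK a)),
            wK w a * (cnt (gsumK a) x : ℝ) := by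
    rw [hI, hΦ, Finset.sum_filter_add_sum_filter_not]
  have hI0 : 0 ≤ ∑ a ∈ I, wK w a * (cnt (gsumK a) x : ℝ) :=
    Finset.sum_nonneg fun a _ => mul_nonneg (hwK0 a) (Nat.cast_nonneg _)
  have hinjG : ∑ a ∈ I, wK w a * SI (gsumK a) ≤ (1 + ε / 4) * G := by
    have h3 : ∑ a ∈ I, wK w a * SI (gsumK a) ≤
        ∑ a ∈ I, (1 + ε / 4) * (wK w a * SZ z (gsumK a)) := by
      refine Finset.sum_le_sum fun a ha => ?_
      rw [hI, mem_filter] at ha
      have h4 := mul_le_mul_of_nonneg_left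
        (hx3 ((j : Fin d) → Fin (k j + 1)) (gsumK a) (card_index k) ha.2 (hgx a ha.1)) (hwK0 a)
      linarith
    refine h3.trans ?_
    rw [← Finset.mul_sum]
    refine mul_le_mul_of_nonneg_left ?_ (by positivity)
    exact Finset.sum_le_sum_of_subset_of_nonneg (Finset.filter_subset _ _) fun a _ _ =>
      mul_nonneg (hwK0 a) (SZ_nonneg _ _)
  rcases le_or_gt (1 - ε - c * μ) 0 with hneg | hpos'
  · constructor
    · refine le_trans (mul_nonpos_of_nonpos_of_nonneg hneg (mul_nonneg hXpos.le ?_)) hI0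
      refine Finset.sum_nonneg fun a ha => mul_nonneg (hwK0 a) (SI_nonneg _ ?_)
      rw [hI, mem_filter] at ha
      exact ha.2
    · exact le_trans (mul_nonpos_of_nonpos_of_nonneg hneg (by positivity)) hI0
  · have hε'' : 0 < 1 - ε' := by linarith
    have hmainI : (1 - ε' - c * μ) * (X * G) ≤ ∑ a ∈ I, wK w a * (cnt (gsumK a) x : ℝ) := by
      have h5 : (1 - c * (μ / (1 - ε'))) * Φ ≤ ∑ a ∈ I, wK w a * (cnt (gsumK a) x : ℝ) := by
        linarith
      have h55 : 0 ≤ 1 - c * (μ / (1 - ε')) := by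
        rw [← mul_div_assoc, sub_nonneg, div_le_one hε'']
        linarith
      have h6 : (1 - c * (μ / (1 - ε'))) * ((1 - ε') * (X * G)) ≤ (1 - c * (μ / (1 - ε'))) * Φ :=
        mul_le_mul_of_nonneg_left h1 h55
      have h7 : (1 - ε' - c * μ) * (X * G) = (1 - c * (μ / (1 - ε'))) * ((1 - ε') * (X * G)) := by
        have h8 : μ / (1 - ε') * (1 - ε') = μ := div_mul_cancel₀ _ hε''.ne'
        calc (1 - ε' - c * μ) * (X * G) = (1 - ε' - c * (μ / (1 - ε') * (1 - ε'))) * (X * G) := by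
              rw [h8]
          _ = _ := by ring
      linarith
    constructor
    · calc (1 - ε - c * μ) * (X * ∑ a ∈ I, wK w a * SI (gsumK a))
          ≤ (1 - ε - c * μ) * (X * ((1 + ε / 4) * G)) := by gcongr
        _ = ((1 - ε - c * μ) * (1 + ε / 4)) * (X * G) := by ring
        _ ≤ (1 - ε' - c * μ) * (X * G) := by
            refine mul_le_mul_of_nonneg_right ?_ hXG
            nlinarith
        _ ≤ _ := hmainI
    · calc (1 - ε - c * μ) * (X * V) ≤ (1 - ε - c * μ) * (X * G) := by gcongr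
        _ ≤ (1 - ε' - c * μ) * (X * G) := by
            refine mul_le_mul_of_nonneg_right (by linarith) hXG
        _ ≤ _ := hmainI

end Pool.Agent.HLD
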