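import Pool.Agent.Lib.HLB.PrimeSieve

/-!
# Lower bound sieve for the primes in the translated interval `(a, a + x]`, `a ≤ x (log x)^K`
-/

set_option autoImplicit false

open Finset Filter

namespace Pool.Agent.HLD

open Pool.Agent.HLB Pool.Agent.Lib.Sieve4

theorem prime_sieve2 (hSW : SW) (κ K0 : ℕ) {ε : ℝ} (hε : 0 < ε) (M : ℕ) :
    ∀ᶠ x : ℕ in atTop, ∀ a : ℕ, (a : ℝ) ≤ x * Real.log x ^ K0 →
      ∀ z : ℕ, (z : ℝ) ≤ Real.log x → ∀ F : ℕ → Finset ℕ,
      (∀ q ∈ Nat.primesLE z, F q ⊆ Ico 1 q ∧ (F q).card ≤ κ) →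
      (1 - ε) * (x / Real.log x) *
          ∏ q ∈ Nat.primesLE z, (1 - ((F q).card : ℝ) / ((q : ℝ) - 1)) - x / Real.log x ^ M
        ≤ (((Icc 1 (x + a)).filter (fun n : ℕ => ((a < n ∧ z < n) ∧ n.Prime) ∧
            ∀ q ∈ Nat.primesLE z, n % q ∉ F q)).card : ℝ) := by
  classical
  set η : ℝ := min (ε / 3) (1 / 2) with hη
  have hη0 : 0 < η := lt_min (by positivity) (by norm_num)
  have hη1 : η < 1 := lt_of_le_of_lt (min_le_right _ _) (by norm_num)
  have hηε : η ≤ ε / 3 := min_le_left _ _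
  obtain ⟨K, hK⟩ := hooley κ hη0
  set A : ℕ := 2 * K + M + K0 with hA
  obtain ⟨C, hC, hCb⟩ := hSW A
  simp only [Real.rpow_natCast] at hCb
  have hlim : Tendsto (fun n : ℕ => Real.log (n : ℝ)) atTop atTop :=
    Real.tendsto_log_atTop.comp tendsto_natCast_atTop_atTop
  have hsmall : ∀ᶠ x : ℕ in atTop, Real.log x ≤ η * x := by
    have h1 := (Real.isLittleO_log_id_atTop.bound hη0)
    have h2 := tendsto_natCast_atTop_atTop.eventually h1
    filter_upwards [h2] with x hx
    have hx' : ‖Real.log x‖ ≤ η * ‖(x:ℝ)‖ := hx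
    rw [Real.norm_of_nonneg (Nat.cast_nonneg x)] at hx'
    exact (le_abs_self _).trans hx'
  have hloglog : ∀ᶠ x : ℕ in atTop, Real.log 2 + K0 * Real.log (Real.log x) ≤ η * Real.log x := by
    have h1 : ∀ᶠ u : ℝ in atTop, Real.log 2 + K0 * Real.log u ≤ η * u := by
      have h3 := Real.isLittleO_log_id_atTop.bound (c := η / (2 * (K0 + 1))) (by positivity)
      filter_upwards [h3, eventually_ge_atTop (2 * Real.log 2 / η), eventually_ge_atTop 1]
        with u hu hu2 hu3
      have hu' : ‖Real.log u‖ ≤ η / (2 * (K0 + 1)) * ‖u‖ := hu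
      rw [Real.norm_of_nonneg (by linarith only [hη0, hη1, hu3] : (0:ℝ) ≤ u)] at hu'
      have hu4 : Real.log u ≤ η / (2 * (K0 + 1)) * u := (le_abs_self _).trans hu'
      have h5 : (K0 : ℝ) * Real.log u ≤ η / 2 * u := by
        have h6 : (K0 : ℝ) * Real.log u ≤ (K0 + 1) * Real.log u := by
          have := Real.log_nonneg hu3
          nlinarith only [this]
        have h7 : ((K0 : ℝ) + 1) * Real.log u ≤ (K0 + 1) * (η / (2 * (K0 + 1)) * u) := by gcongr
        have h8 : ((K0 : ℝ) + 1) * (η / (2 * (K0 + 1)) * u) = η / 2 * u := by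
          field_simp
        linarith only [h6, h7, h8]
      have h9 : Real.log 2 ≤ η / 2 * u := by
        rw [div_le_iff₀ hη0] at hu2
        linarith only [hu2]
      linarith only [h5, h9]
    exact hlim.eventually h1
  set C2 : ℝ := 2 ^ (2 * K) * (4 * C * 2 ^ A) with hC2
  filter_upwards [hlim.eventually (eventually_ge_atTop (2 * (-Real.log η))),
    hlim.eventually (eventually_ge_atTop 8), hlim.eventually (eventually_ge_atTop C2),
    eventually_ge_atTop 1, hsmall, hloglog] with x hxη hx8 hxC hx1 hxs hxll a ha z hz F hF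
  set L := Real.log (x : ℝ) with hL
  have hx0 : (0 : ℝ) < x := by exact_mod_cast hx1
  have hL0 : 0 < L := by linarith only [hη0, hη1, hx8]
  have hlogη : Real.log (η * x) = Real.log η + L := Real.log_mul hη0.ne' hx0.ne'
  have ha0 : (0:ℝ) ≤ a := Nat.cast_nonneg a
  set y : ℝ := max (a : ℝ) (η * x) with hy
  set X : ℕ := x + a with hXdef
  have hXR : (X : ℝ) = x + a := by rw [hXdef]; push_cast; ring
  set L1 := Real.log (η * x) with hL1
  have hL1L : L / 2 ≤ L1 := by linarith only [hxη, hlogη]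
  have hL14 : 4 ≤ L1 := by linarith only [hxη, hx8, hlogη]
  have hηx2 : 2 ≤ η * x := by
    have h1 : (0 : ℝ) < η * x := by (clear * - hε hx1; positivity)
    have h2 : Real.log 2 ≤ Real.log (η * x) := by
      have := Real.log_two_lt_d9
      rw [← hL1]
      linarith only [hη0, hη1, hxη, hx8, hlogη, this]
    exact (Real.log_le_log_iff (by norm_num) h1).mp h2
  have hηxx : η * x ≤ x := mul_le_of_le_one_left hx0.le hη1.le
  have hx2 : (2 : ℝ) ≤ x := hηx2.trans hηxx
  have hy2 : 2 ≤ y := hηx2.trans (le_max_right _ _)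
  have hL1y : L1 ≤ Real.log y := by
    rw [hL1]
    exact Real.log_le_log (by linarith only [hη0, hη1, hx8, hxs]) (le_max_right _ _)
  have hyX : y ≤ X := by
    rw [hXR]
    exact max_le (by linarith only [hη0, hη1, hx8, hxs, hηxx]) (by linarith only [hηxx])
  have hX2 : (2:ℝ) ≤ X := hy2.trans hyX
  have hxX : (x:ℝ) ≤ X := by rw [hXR]; linarith
  have hLX : L ≤ Real.log X := by
    rw [hL]
    exact Real.log_le_log hx0 hxX
  -- the upper end
  have hXle : (X : ℝ) ≤ x * (2 * L ^ K0) := by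
    rw [hXR]
    have h1 : (1:ℝ) ≤ L ^ K0 := one_le_pow₀ (by linarith only [hη0, hη1, hx8])
    have h2 : (x:ℝ) * (2 * L ^ K0) = x * L ^ K0 + x * L ^ K0 := by ring
    rw [h2]
    exact add_le_add (le_mul_of_one_le_right hx0.le h1) ha
  have hlogX : Real.log X ≤ (1 + η) * L := by
    have h1 : Real.log X ≤ Real.log (x * (2 * L ^ K0)) :=
      Real.log_le_log (by linarith only [hη0, hη1, hx8, hxs, hXR, hηxx]) hXle
    have h2 : Real.log (x * (2 * L ^ K0)) = L + (Real.log 2 + K0 * Real.log L) := by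
      rw [Real.log_mul hx0.ne' (by (clear * - hx8; positivity)), Real.log_mul (by norm_num) (by (clear * - hx8; positivity)),
        Real.log_pow]
    linarith only [hxll, h1, h2]
  obtain ⟨lam, hl1, hl2, hl3, hl4⟩ := hK z
  set T := (Icc 1 X).filter (fun n : ℕ => y < n ∧ n.Prime) with hT
  have hcomb := sieve_sum T F z lam hl3
  -- the size of the modulus
  have hz1 : ((z + 1 : ℕ) : ℝ) ≤ 2 * L := by
    push_cast
    linarith only [hη0, hη1, hx8, hz]
  have hzK : (((z + 1) ^ K : ℕ) : ℝ) ≤ L1 ^ A := by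
    push_cast
    calc ((z : ℝ) + 1) ^ K ≤ (2 * L) ^ K := by
          apply pow_le_pow_left₀ (by (clear * -; positivity))
          exact_mod_cast hz1
      _ ≤ (L1 * L1) ^ K := by
          apply pow_le_pow_left₀ (by (clear * - hx8; positivity))
          calc 2 * L ≤ 4 * L1 := by linarith only [hxη, hlogη]
            _ ≤ L1 * L1 := mul_le_mul_of_nonneg_right hL14 (by linarith only [hη0, hη1, hxη, hx8, hlogη])
      _ = L1 ^ (2 * K) := by
          rw [← pow_two, ← pow_mul]
      _ ≤ L1 ^ A := pow_le_pow_right₀ (by linarith only [hη0, hη1, hxη, hx8, hlogη]) (by omega)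
  set Err : ℝ := 2 * C * X / L1 ^ A with hErr
  have hErr0 : 0 ≤ Err := by (clear * - hC hx1 hL14; positivity)
  have hTh : ∀ s ∈ (Nat.primesLE z).powerset, lam s ≠ 0 →
      |Th T F s - (X - y) * ∏ q ∈ s, (((F q).card : ℝ) / ((q : ℝ) - 1))| ≤
        (((z + 1) ^ K : ℕ) : ℝ) * Err := by
    intro s hs hne
    have hd := hl2 s hs hne
    rw [Finset.mem_powerset] at hs
    have hsp : ∀ p ∈ s, p.Prime := fun p hp => (Nat.mem_primesLE.mp (hs hp)).2
    have hdpos : 1 ≤ ∏ p ∈ s, p := Finset.prod_pos (fun p hp => (hsp p hp).pos)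
    have hdR : ((∏ p ∈ s, p : ℕ) : ℝ) ≤ (((z + 1) ^ K : ℕ) : ℝ) := by exact_mod_cast hd
    have hdL1 : ((∏ p ∈ s, p : ℕ) : ℝ) ≤ L1 ^ A := hdR.trans hzK
    have key := Th_main F X (y := y) (by (clear * - hε hx1; positivity)) hyX s hsp
      (fun p hp => (hF p (hs hp)).1) Err hErr0 (by
      intro b hb
      have h1 := hCb X hX2 (∏ p ∈ s, p) b hdpos
        (hdL1.trans (pow_le_pow_left₀ (by linarith only [hη0, hη1, hxη, hx8, hlogη]) (hL1y.trans (Real.log_le_log (by linarith only [hη0, hη1, hy2]) hyX)) _)) hb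
      have h2 := hCb y hy2 (∏ p ∈ s, p) b hdpos
        (hdL1.trans (pow_le_pow_left₀ (by linarith only [hη0, hη1, hxη, hx8, hlogη]) hL1y _)) hb
      have h3 : C * (X : ℝ) / Real.log X ^ A ≤ C * X / L1 ^ A := by
        apply div_le_div_of_nonneg_left (by (clear * - hC hx1; positivity)) (by (clear * - hL14; positivity))
        exact pow_le_pow_left₀ (by linarith only [hη0, hη1, hxη, hx8, hlogη]) (hL1y.trans (Real.log_le_log (by linarith only [hη0, hη1, hy2]) hyX)) _
      have h4 : C * y / Real.log y ^ A ≤ C * X / L1 ^ A := by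
        calc C * y / Real.log y ^ A ≤ C * y / L1 ^ A := by
              apply div_le_div_of_nonneg_left (by (clear * - hε hC hx1; positivity)) (by (clear * - hL14; positivity))
              exact pow_le_pow_left₀ (by linarith only [hη0, hη1, hxη, hx8, hlogη]) hL1y _
          _ ≤ C * X / L1 ^ A := by
              apply div_le_div_of_nonneg_right _ (by (clear * - hL14; positivity))
              exact mul_le_mul_of_nonneg_left hyX hC.le
      have h5 : Err = C * X / L1 ^ A + C * X / L1 ^ A := by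
        rw [hErr]
        ring
      rw [h5]
      have h6 : thetaAP X (∏ p ∈ s, p) b - thetaAP y (∏ p ∈ s, p) b -
          (X - y) / (Nat.totient (∏ p ∈ s, p) : ℝ) =
          (thetaAP X (∏ p ∈ s, p) b - X / (Nat.totient (∏ p ∈ s, p) : ℝ)) -
            (thetaAP y (∏ p ∈ s, p) b - y / (Nat.totient (∏ p ∈ s, p) : ℝ)) := by ring
      rw [h6]
      refine (abs_sub _ _).trans ?_
      exact add_le_add (h1.trans h3) (h2.trans h4))
    exact key.trans (mul_le_mul_of_nonneg_right hdR hErr0)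
  -- the main term
  set g : ℕ → ℝ := fun q => ((F q).card : ℝ) / ((q : ℝ) - 1) with hg
  have hgadm : ∀ p ∈ Nat.primesLE z, 0 ≤ g p ∧ g p ≤ 1 ∧ g p * ((p : ℝ) - 1) ≤ κ := by
    intro p hp
    have hpp := (Nat.mem_primesLE.mp hp).2
    have hp2 : (2 : ℝ) ≤ p := by exact_mod_cast hpp.two_le
    have hp1 : (0 : ℝ) < (p : ℝ) - 1 := by linarith only [hη0, hη1, hp2]
    have hc1 : ((F p).card : ℝ) ≤ (p : ℝ) - 1 := by
      have h1 := Finset.card_le_card (hF p hp).1
      rw [Nat.card_Ico] at h1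
      have h2 : ((F p).card : ℝ) ≤ ((p - 1 : ℕ) : ℝ) := by exact_mod_cast h1
      rw [Nat.cast_sub hpp.one_lt.le] at h2
      simpa using h2
    refine ⟨by (clear * - hp1; positivity), ?_, ?_⟩
    · simp only [hg]
      rw [div_le_one hp1]
      exact hc1
    · simp only [hg]
      rw [div_mul_cancel₀ _ hp1.ne']
      exact_mod_cast (hF p hp).2
  have hmain := hl4 g hgadm
  have hP0 : 0 ≤ ∏ p ∈ Nat.primesLE z, (1 - g p) :=
    Finset.prod_nonneg (fun p hp => by linarith only [hgadm, hp, (hgadm p hp).2.1])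
  -- the total error
  have hlow : (X - y) * ∑ s ∈ (Nat.primesLE z).powerset, lam s * ∏ p ∈ s, g p -
      (((z + 1) ^ K : ℕ) : ℝ) * ((((z + 1) ^ K : ℕ) : ℝ) * Err) ≤
      ∑ s ∈ (Nat.primesLE z).powerset, lam s * Th T F s := by
    rw [Finset.mul_sum, sub_le_iff_le_add, ← sub_le_iff_le_add', ← Finset.sum_sub_distrib]
    have h1 : ∀ s ∈ (Nat.primesLE z).powerset,
        (X - y) * (lam s * ∏ p ∈ s, g p) - lam s * Th T F s ≤
          if ∏ p ∈ s, p ≤ (z + 1) ^ K then (((z + 1) ^ K : ℕ) : ℝ) * Err else 0 := by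
      intro s hs
      by_cases hne : lam s = 0
      · rw [hne]
        simp only [zero_mul, mul_zero, sub_zero]
        split_ifs <;> (clear * - hC hx1 hL14; positivity)
      · rw [if_pos (hl2 s hs hne)]
        have h2 := hTh s hs hne
        have h3 : (X - y) * (lam s * ∏ p ∈ s, g p) - lam s * Th T F s =
            -(lam s * (Th T F s - (X - y) * ∏ p ∈ s, g p)) := by ring
        rw [h3]
        refine (neg_le_abs _).trans ?_
        rw [abs_mul]
        calc |lam s| * |Th T F s - (X - y) * ∏ p ∈ s, g p| ≤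
            1 * |Th T F s - (X - y) * ∏ p ∈ s, g p| :=
              mul_le_mul_of_nonneg_right (hl1 s) (abs_nonneg _)
          _ ≤ _ := by rw [one_mul]; exact h2
    refine (Finset.sum_le_sum h1).trans ?_
    rw [← Finset.sum_filter, Finset.sum_const, nsmul_eq_mul]
    apply mul_le_mul_of_nonneg_right _ (by (clear * - hC hx1 hL14; positivity))
    exact_mod_cast card_DD_le (Nat.primesLE z) (fun p hp => (Nat.mem_primesLE.mp hp).2) ((z + 1) ^ K)
  have hupp : ∑ n ∈ T.filter (fun n => ∀ q ∈ Nat.primesLE z, n % q ∉ F q), Real.log n ≤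
      (1 + η) * L * ((T.filter (fun n => ∀ q ∈ Nat.primesLE z, n % q ∉ F q)).card : ℝ) := by
    rw [mul_comm, ← nsmul_eq_mul, ← Finset.sum_const]
    apply Finset.sum_le_sum
    intro n hn
    have h1 := (Finset.mem_filter.mp (Finset.mem_filter.mp hn).1).1
    rw [Finset.mem_Icc] at h1
    refine le_trans ?_ hlogX
    apply Real.log_le_log
    · exact_mod_cast h1.1
    · exact_mod_cast h1.2
  have hTf : T.filter (fun n => ∀ q ∈ Nat.primesLE z, n % q ∉ F q) ⊆
      (Icc 1 X).filter (fun n : ℕ => ((a < n ∧ z < n) ∧ n.Prime) ∧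
        ∀ q ∈ Nat.primesLE z, n % q ∉ F q) := by
    intro n hn
    rw [hT, Finset.filter_filter, Finset.mem_filter] at hn
    rw [Finset.mem_filter]
    obtain ⟨h1, ⟨h2, h3⟩, h4⟩ := hn
    refine ⟨h1, ⟨⟨?_, ?_⟩, h3⟩, h4⟩
    · have : (a:ℝ) < n := lt_of_le_of_lt (le_max_left _ _) h2
      exact_mod_cast this
    · have h5 : (z:ℝ) ≤ y := (hz.trans hxs).trans (le_max_right _ _)
      have : (z:ℝ) < n := lt_of_le_of_lt h5 h2
      exact_mod_cast this
  have hcardle : ((T.filter (fun n => ∀ q ∈ Nat.primesLE z, n % q ∉ F q)).card : ℝ) ≤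
      (((Icc 1 X).filter (fun n : ℕ => ((a < n ∧ z < n) ∧ n.Prime) ∧
        ∀ q ∈ Nat.primesLE z, n % q ∉ F q)).card : ℝ) := by
    exact_mod_cast Finset.card_le_card hTf
  set W : ℝ := ((T.filter (fun n => ∀ q ∈ Nat.primesLE z, n % q ∉ F q)).card : ℝ) with hW
  refine le_trans ?_ hcardle
  have hW0 : 0 ≤ W := Nat.cast_nonneg _
  set P := ∏ p ∈ Nat.primesLE z, (1 - g p) with hP
  have hxy : (1 - η) * x ≤ (X : ℝ) - y := by
    rw [hXR]
    have h1 : y ≤ a + η * x := max_le (le_add_of_nonneg_right (by (clear * - hε hx1; positivity))) (by linarith)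
    have h2 : (1 - η) * (x:ℝ) = x - η * x := by ring
    rw [h2]
    linarith only [h1]
  have hxy0 : 0 ≤ (X : ℝ) - y := by linarith only [hyX]
  have hmain2 : (1 - η) * x * ((1 - η) * P) ≤
      (X - y) * ∑ s ∈ (Nat.primesLE z).powerset, lam s * ∏ p ∈ s, g p := by
    refine le_trans ?_ (mul_le_mul_of_nonneg_left hmain hxy0)
    refine mul_le_mul_of_nonneg_right hxy ?_
    exact mul_nonneg (by linarith only [hη1]) hP0
  have herr : (((z + 1) ^ K : ℕ) : ℝ) * ((((z + 1) ^ K : ℕ) : ℝ) * Err) ≤ L * (x / L ^ M) := by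
    have h1 : (((z + 1) ^ K : ℕ) : ℝ) ≤ (2 * L) ^ K := by
      push_cast
      apply pow_le_pow_left₀ (by (clear * -; positivity))
      exact_mod_cast hz1
    have h2 : Err ≤ 4 * C * x * L ^ K0 * 2 ^ A / L ^ A := by
      rw [hErr, div_le_div_iff₀ (by (clear * - hL14; positivity)) (by (clear * - hx8; positivity))]
      have h3 : L ^ A ≤ 2 ^ A * L1 ^ A := by
        rw [← mul_pow]
        apply pow_le_pow_left₀ hL0.le
        linarith only [hxη, hlogη]
      calc 2 * C * X * L ^ A ≤ 2 * C * (x * (2 * L ^ K0)) * (2 ^ A * L1 ^ A) := by gcongr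
        _ = 4 * C * x * L ^ K0 * 2 ^ A * L1 ^ A := by ring
    calc (((z + 1) ^ K : ℕ) : ℝ) * ((((z + 1) ^ K : ℕ) : ℝ) * Err) ≤
        (2 * L) ^ K * ((2 * L) ^ K * (4 * C * x * L ^ K0 * 2 ^ A / L ^ A)) := by gcongr
      _ = C2 * (x / L ^ M) := by
          rw [hC2, hA, pow_add L, pow_add L, mul_pow, pow_mul' 2 2 K, pow_mul' L 2 K]
          field_simp
      _ ≤ L * (x / L ^ M) := mul_le_mul_of_nonneg_right hxC (by (clear * - hx1 hx8; positivity))
  have hfin : (1 - η) * x * ((1 - η) * P) - L * (x / L ^ M) ≤ (1 + η) * L * W := by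
    linarith only [hcomb, hlow, hupp, hmain2, herr]
  have hxLM : 0 ≤ x / L ^ M := by (clear * - hx1 hx8; positivity)
  have hfin2 : (1 + η) * L * ((1 - ε) * (x / L) * P - x / L ^ M) ≤ (1 + η) * L * W := by
    refine le_trans ?_ hfin
    have e1 : (1 + η) * L * ((1 - ε) * (x / L) * P - x / L ^ M) =
        (1 + η) * (1 - ε) * (x * P) - (1 + η) * L * (x / L ^ M) := by
      field_simp
    rw [e1]
    have e2 : (1 + η) * (1 - ε) * (x * P) ≤ (1 - η) * x * ((1 - η) * P) := by
      have e3 : (1 - η) * x * ((1 - η) * P) = (1 - η) * (1 - η) * (x * P) := by ring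
      rw [e3]
      refine mul_le_mul_of_nonneg_right ?_ (by (clear * - hx1 hP0; positivity))
      have h1 : 0 ≤ η * ε := by (clear * - hε; positivity)
      have h2 : 0 ≤ η * η := by (clear * - hε; positivity)
      have h3 : (1 + η) * (1 - ε) = 1 + η - ε - η * ε := by ring
      have h4 : (1 - η) * (1 - η) = 1 - 2 * η + η * η := by ring
      rw [h3, h4]
      linarith only [hηε, h1, h2]
    have e4 : L * (x / L ^ M) ≤ (1 + η) * L * (x / L ^ M) := by
      have h1 : 0 ≤ η * (L * (x / L ^ M)) := by (clear * - hε hx1 hx8; positivity)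
      have h2 : (1 + η) * L * (x / L ^ M) = L * (x / L ^ M) + η * (L * (x / L ^ M)) := by ring
      rw [h2]
      exact le_add_of_nonneg_right h1
    linarith only [e2, e4]
  exact le_of_mul_le_mul_left hfin2 (by (clear * - hε hx8; positivity))

end Pool.Agent.HLD
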